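import Pool.Agent.H41.KG.Defs

/-! # Project KG, KG-A: the arithmetic factor is at most one -/

set_option autoImplicit false

open MeasureTheory Filter Topology Set

namespace Pool.Agent.H41.KG

open Pool.Agent.H41.KS (ph)

lemma choose_step (m K : ℕ) : (((m + 1 + K).choose K : ℕ) : ℝ) * ((m : ℝ) + 1) = ((m + K).choose K : ℕ) * ((m : ℝ) + K + 1) := by
  have h := Nat.choose_mul_succ_eq (m + K) K
  have e : m + K + 1 - K = m + 1 := by omega
  rw [e] at h
  have h2 : ((m + K).choose K : ℝ) * (m + K + 1 : ℕ) = ((m + K + 1).choose K : ℝ) * (m + 1 : ℕ) := by exact_mod_cast h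
  rw [show m + 1 + K = m + K + 1 by omega]
  push_cast at h2 ⊢
  linarith

lemma choose_sq_le (K m : ℕ) : (((m + K).choose K : ℕ) : ℝ) ^ 2 ≤ ((m + (K ^ 2 + 2 * K)).choose (K ^ 2 + 2 * K) : ℕ) := by
  induction m with
  | zero => simp
  | succ m ih =>
    set p := K ^ 2 + 2 * K with hp
    have h1 := choose_step m K
    have h2 := choose_step m p
    set u := (((m + K).choose K : ℕ) : ℝ)
    set u' := (((m + 1 + K).choose K : ℕ) : ℝ)
    set v := (((m + p).choose p : ℕ) : ℝ)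
    set v' := (((m + 1 + p).choose p : ℕ) : ℝ)
    have hm : (0:ℝ) < (m : ℝ) + 1 := by positivity
    have hu : 0 ≤ u ^ 2 := sq_nonneg u
    have hv : 0 ≤ v := hu.trans ih
    have hpc : (p : ℝ) = (K : ℝ) ^ 2 + 2 * K := by rw [hp]; push_cast; ring
    have hKn : (0:ℝ) ≤ K := Nat.cast_nonneg K
    have hmn : (0:ℝ) ≤ m := Nat.cast_nonneg m
    have key : ((m : ℝ) + K + 1) ^ 2 ≤ ((m : ℝ) + p + 1) * ((m : ℝ) + 1) := by
      rw [hpc]; nlinarith [mul_nonneg hmn (sq_nonneg (K : ℝ))]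
    have h3 : (u' * ((m : ℝ) + 1)) ^ 2 ≤ v' * ((m : ℝ) + 1) ^ 2 := by
      rw [h1]
      calc (u * ((m : ℝ) + K + 1)) ^ 2 = u ^ 2 * ((m : ℝ) + K + 1) ^ 2 := by ring
        _ ≤ v * (((m : ℝ) + p + 1) * ((m : ℝ) + 1)) := mul_le_mul ih key (sq_nonneg _) hv
        _ = (v' * ((m : ℝ) + 1)) * ((m : ℝ) + 1) := by rw [h2]; ring
        _ = v' * ((m : ℝ) + 1) ^ 2 := by ring
    rw [mul_pow] at h3
    exact le_of_mul_le_mul_right h3 (by positivity)

theorem a_le (K : ℕ) {w : ℝ} (hw : 4 ≤ w) : (1 - Real.exp (-w)) ^ ((K + 1) ^ 2) * ph K w ≤ 1 := by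
  set x := Real.exp (-w) with hx
  have hx0 : 0 < x := Real.exp_pos _
  have hx1 : x < 1 := by
    rw [hx, ← Real.exp_zero]; exact Real.exp_lt_exp.2 (by linarith)
  set p := K ^ 2 + 2 * K with hp
  have hs := hasSum_choose_mul_geometric_of_norm_lt_one (𝕜 := ℝ) p (r := x)
    (by rw [Real.norm_eq_abs, abs_of_pos hx0]; exact hx1)
  have he : ∀ m : ℕ, Real.exp (-(m * max w 4)) = x ^ m := by
    intro m
    rw [max_eq_left hw, hx, ← Real.exp_nat_mul]
    congr 1; ring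
  have hle : ∀ m : ℕ, (((m + K).choose K : ℕ) : ℝ) ^ 2 * Real.exp (-(m * max w 4)) ≤ ((m + p).choose p : ℕ) * x ^ m := by
    intro m
    rw [he]
    exact mul_le_mul_of_nonneg_right (choose_sq_le K m) (by positivity)
  have h1 : ph K w ≤ 1 / (1 - x) ^ (p + 1) := by
    unfold ph
    rw [← hs.tsum_eq]
    refine Summable.tsum_le_tsum hle ?_ hs.summable
    exact Summable.of_nonneg_of_le (fun m => by positivity) hle hs.summable
  have hpow : (K + 1) ^ 2 = p + 1 := by rw [hp]; ring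
  rw [hpow]
  have h2 : 0 < (1 - x) ^ (p + 1) := by
    have : 0 < 1 - x := by linarith
    positivity
  calc (1 - x) ^ (p + 1) * ph K w ≤ (1 - x) ^ (p + 1) * (1 / (1 - x) ^ (p + 1)) :=
        mul_le_mul_of_nonneg_left h1 h2.le
    _ = 1 := by field_simp

end Pool.Agent.H41.KG
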