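import Pool.Agent.H41.KG.Defs
import Pool.Agent.H41.KS.Len

/-! # Project KG, stub KG-C: `c e^γ < 1` -/

set_option autoImplicit false

open MeasureTheory Filter Topology Set

namespace Pool.Agent.H41.KG

open Pool.Agent.H41.BC (g tr NN q1)
open Pool.Agent.H41.KS (Cl lw Pr zz m1 m2 e2 ph)

theorem clt_factor {x : ℝ} (h0 : 0 ≤ x) (h1 : x ≤ 1 / 2) : (1 - x)⁻¹ ≤ Real.exp (x + x ^ 2) := by
  have h2 : 0 < 1 - x := by linarith
  rw [inv_le_iff_one_le_mul₀ h2]
  have h3 := Real.quadratic_le_exp_of_nonneg (x := x + x ^ 2) (by positivity)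
  have h4 : 1 ≤ (1 + (x + x ^ 2) + (x + x ^ 2) ^ 2 / 2) * (1 - x) := by
    have h5 : (1 + (x + x ^ 2) + (x + x ^ 2) ^ 2 / 2) * (1 - x) =
        1 + x ^ 2 * (1 - x - x ^ 2 - x ^ 3) / 2 := by ring
    rw [h5]
    have h6 : x ^ 2 ≤ 1 / 4 := by nlinarith
    have h7 : x ^ 3 ≤ 1 / 8 := by
      have : x ^ 3 = x * x ^ 2 := by ring
      nlinarith [sq_nonneg x]
    have h8 : 0 ≤ x ^ 2 * (1 - x - x ^ 2 - x ^ 3) := mul_nonneg (sq_nonneg x) (by linarith)
    linarith
  exact h4.trans (mul_le_mul_of_nonneg_right h3 h2.le)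

theorem clt_cell {α : ℕ → ℝ} (H : Cl α) (n : ℕ) {v : ℝ} (hv : v ∈ Icc (α n) (α (n + 1))) :
    Real.exp (-α n) + Real.exp (-α n) ^ 2 ≤
      Real.exp (-v) + (2 * v + 1) * Real.exp (2 - 2 * v) := by
  have h4 := H.four_le n
  have hlen := KS.len H n
  have hshort := H.short n
  set e := Real.exp (-α n) with he
  have he0 : 0 < e := Real.exp_pos _
  have h1 : e * (1 - (v - α n)) ≤ Real.exp (-v) := by
    have h2 : Real.exp (-v) = e * Real.exp (-(v - α n)) := by
      rw [he, ← Real.exp_add]; congr 1; ring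
    rw [h2]
    refine mul_le_mul_of_nonneg_left ?_ he0.le
    have := Real.add_one_le_exp (-(v - α n))
    linarith
  have h3 : e * (v - α n) ≤ 2 * α n * e ^ 2 := by
    have h5 : v - α n ≤ 2 * α n * e := by linarith [hv.2]
    calc e * (v - α n) ≤ e * (2 * α n * e) := mul_le_mul_of_nonneg_left h5 he0.le
      _ = _ := by ring
  have h6 : e ^ 2 ≤ Real.exp (2 - 2 * v) := by
    rw [he, ← Real.exp_nat_mul]
    apply Real.exp_le_exp.2
    push_cast
    linarith [hv.2]
  have h7 : (2 * α n + 1) * e ^ 2 ≤ (2 * v + 1) * Real.exp (2 - 2 * v) :=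
    mul_le_mul (by linarith [hv.1]) h6 (by positivity) (by linarith [hv.1])
  nlinarith

theorem clt_exp (a b : ℝ) : ∫ v in a..b, Real.exp (-v) = Real.exp (-a) - Real.exp (-b) := by
  rw [intervalIntegral.integral_comp_neg (fun x => Real.exp x), integral_exp]

theorem clt_int {a b : ℝ} (ha : 4 ≤ a) (hab : a ≤ b) :
    ∫ v in a..b, g v * ((2 * v + 1) * Real.exp (2 - 2 * v)) ≤ 9 / 4 * Real.exp 2 * Real.exp (-a) := by
  have h2 : ∫ v in a..b, g v * ((2 * v + 1) * Real.exp (2 - 2 * v)) ≤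
      ∫ v in a..b, 9 / 4 * Real.exp 2 * Real.exp (-v) := by
    refine intervalIntegral.integral_mono_on hab
      ((BC.g_cont.mul (by fun_prop)).intervalIntegrable _ _)
      (Continuous.intervalIntegrable (by fun_prop) _ _) fun v hv => ?_
    have hv0 : 4 ≤ v := by linarith [hv.1]
    have hvp : 0 < v := by linarith
    calc g v * ((2 * v + 1) * Real.exp (2 - 2 * v))
        ≤ (Real.exp v / v) * ((2 * v + 1) * Real.exp (2 - 2 * v)) :=
          mul_le_mul_of_nonneg_right (KS.len_g_le_div hvp) (by positivity)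
      _ = ((2 * v + 1) / v) * (Real.exp v * Real.exp (2 - 2 * v)) := by ring
      _ ≤ (9 / 4) * (Real.exp v * Real.exp (2 - 2 * v)) := by
          refine mul_le_mul_of_nonneg_right ?_ (by positivity)
          rw [div_le_iff₀ hvp]
          linarith
      _ = 9 / 4 * Real.exp 2 * Real.exp (-v) := by
          rw [← Real.exp_add, mul_assoc, ← Real.exp_add]; congr 2; ring
  refine h2.trans ?_
  have h3 : ∫ v in a..b, 9 / 4 * Real.exp 2 * Real.exp (-v) =
      9 / 4 * Real.exp 2 * (Real.exp (-a) - Real.exp (-b)) := by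
    rw [intervalIntegral.integral_const_mul]
    rw [clt_exp]
  rw [h3]
  exact mul_le_mul_of_nonneg_left (by linarith [Real.exp_pos (-b)]) (by positivity)

theorem clt_int0 {a : ℝ} (ha : 0 ≤ a) : 1 - Real.exp (-a) ≤ ∫ v in (0 : ℝ)..a, g v * Real.exp (-v) := by
  have h1 : ∫ v in (0 : ℝ)..a, Real.exp (-v) ≤ ∫ v in (0 : ℝ)..a, g v * Real.exp (-v) := by
    refine intervalIntegral.integral_mono_on ha
      (Continuous.intervalIntegrable (by fun_prop) _ _)
      ((BC.g_cont.mul (by fun_prop)).intervalIntegrable _ _) fun v hv => ?_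
    have := BC.one_le_g hv.1
    nlinarith [Real.exp_pos (-v)]
  have h2 := clt_exp 0 a
  rw [h2, neg_zero, Real.exp_zero] at h1
  exact h1

theorem clt_q {α : ℕ → ℝ} (H : Cl α) {W : ℕ → ℝ} (hW : ∀ n, W n ∈ Ioc (α n) (α (n + 1))) (K : ℕ) :
    q1 α W K ≤ Real.exp (-1 + Real.exp (-4) + 9 / 4 * Real.exp (-2)) := by
  have h0 := H.four_le 0
  have hmono : α 0 ≤ α K := H.alpha_mono.monotone (Nat.zero_le K)
  -- the product
  have h1 : ∏ k ∈ Finset.range K, (1 - Real.exp (-W k))⁻¹ ≤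
      Real.exp (∑ k ∈ Finset.range K, (Real.exp (-α k) + Real.exp (-α k) ^ 2)) := by
    rw [Real.exp_sum]
    refine Finset.prod_le_prod (fun k _ => ?_) fun k _ => ?_
    · have h2 : Real.exp (-W k) ≤ 1 := by
        rw [Real.exp_le_one_iff]
        linarith [(hW k).1, H.four_le k]
      exact inv_nonneg.mpr (by linarith)
    · have h2 : Real.exp (-W k) ≤ Real.exp (-α k) := Real.exp_le_exp.2 (by linarith [(hW k).1])
      have h3 : Real.exp (-α k) ≤ 1 / 2 := by
        have h4 : Real.exp (-α k) ≤ Real.exp (-1) := Real.exp_le_exp.2 (by linarith [H.four_le k])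
        have h5 := Real.exp_neg_one_lt_d9
        linarith
      refine (clt_factor (Real.exp_pos _).le (h2.trans h3)).trans (Real.exp_le_exp.2 ?_)
      have h4 : Real.exp (-W k) ^ 2 ≤ Real.exp (-α k) ^ 2 :=
        pow_le_pow_left₀ (Real.exp_pos _).le h2 2
      linarith
  have h2 : ∑ k ∈ Finset.range K, (Real.exp (-α k) + Real.exp (-α k) ^ 2) ≤
      ∫ v in α 0..α K, g v * (Real.exp (-v) + (2 * v + 1) * Real.exp (2 - 2 * v)) := by
    rw [Finset.range_eq_Ico]
    exact KS.len_cells_sum H (Nat.zero_le K) (by fun_prop) fun n =>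
      KS.len_cell_le H n (by fun_prop) fun v hv => clt_cell H n hv
  have h3 : ∫ v in α 0..α K, g v * (Real.exp (-v) + (2 * v + 1) * Real.exp (2 - 2 * v)) =
      (∫ v in α 0..α K, g v * Real.exp (-v)) +
        ∫ v in α 0..α K, g v * ((2 * v + 1) * Real.exp (2 - 2 * v)) := by
    have i1 : IntervalIntegrable (fun v => g v * Real.exp (-v)) volume (α 0) (α K) :=
      (BC.g_cont.mul (by fun_prop)).intervalIntegrable _ _
    have i2 : IntervalIntegrable (fun v => g v * ((2 * v + 1) * Real.exp (2 - 2 * v))) volume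
        (α 0) (α K) := (BC.g_cont.mul (by fun_prop)).intervalIntegrable _ _
    rw [← intervalIntegral.integral_add i1 i2]
    congr 1
    ext v
    ring
  have h4 : (∫ v in (0 : ℝ)..α K, g v * Real.exp (-v)) =
      (∫ v in (0 : ℝ)..α 0, g v * Real.exp (-v)) + ∫ v in α 0..α K, g v * Real.exp (-v) :=
    (intervalIntegral.integral_add_adjacent_intervals
      ((BC.g_cont.mul (by fun_prop)).intervalIntegrable _ _)
      ((BC.g_cont.mul (by fun_prop)).intervalIntegrable _ _)).symm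
  have h5 := clt_int h0 hmono
  have h6 := clt_int0 (by linarith : (0 : ℝ) ≤ α 0)
  have h7 : Real.exp (-α 0) ≤ Real.exp (-4) := Real.exp_le_exp.2 (by linarith)
  have h8 : 9 / 4 * Real.exp 2 * Real.exp (-α 0) ≤ 9 / 4 * Real.exp (-2) := by
    have h9 : Real.exp 2 * Real.exp (-4) = Real.exp (-2) := by
      rw [← Real.exp_add]; norm_num
    calc 9 / 4 * Real.exp 2 * Real.exp (-α 0) ≤ 9 / 4 * Real.exp 2 * Real.exp (-4) :=
          mul_le_mul_of_nonneg_left h7 (by positivity)
      _ = 9 / 4 * Real.exp (-2) := by rw [mul_assoc, h9]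
  calc q1 α W K = (∏ k ∈ Finset.range K, (1 - Real.exp (-W k))⁻¹) *
        Real.exp (-∫ v in (0:ℝ)..α K, g v * Real.exp (-v)) := rfl
    _ ≤ Real.exp (∑ k ∈ Finset.range K, (Real.exp (-α k) + Real.exp (-α k) ^ 2)) *
        Real.exp (-∫ v in (0:ℝ)..α K, g v * Real.exp (-v)) :=
        mul_le_mul_of_nonneg_right h1 (Real.exp_pos _).le
    _ = Real.exp ((∑ k ∈ Finset.range K, (Real.exp (-α k) + Real.exp (-α k) ^ 2)) +
        (-∫ v in (0:ℝ)..α K, g v * Real.exp (-v))) := (Real.exp_add _ _).symm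
    _ ≤ Real.exp (-1 + Real.exp (-4) + 9 / 4 * Real.exp (-2)) := by
        apply Real.exp_le_exp.2
        rw [h4]
        linarith

theorem c_lt {α : ℕ → ℝ} (H : Cl α) {W : ℕ → ℝ} (hW : ∀ n, W n ∈ Ioc (α n) (α (n + 1))) {c : ℝ}
    (hq : Tendsto (fun K => q1 α W K) atTop (𝓝 c)) : c * Real.exp Real.eulerMascheroniConstant < 1 := by
  have h1 : c ≤ Real.exp (-1 + Real.exp (-4) + 9 / 4 * Real.exp (-2)) :=
    le_of_tendsto' hq fun K => clt_q H hW K
  have h2 := Real.eulerMascheroniConstant_lt_two_thirds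
  have h3 : c * Real.exp Real.eulerMascheroniConstant ≤
      Real.exp (-1 + Real.exp (-4) + 9 / 4 * Real.exp (-2) + Real.eulerMascheroniConstant) := by
    rw [Real.exp_add _ Real.eulerMascheroniConstant]
    exact mul_le_mul_of_nonneg_right h1 (Real.exp_pos _).le
  refine h3.trans_lt ?_
  rw [Real.exp_lt_one_iff]
  have h4 := Real.exp_one_gt_d9
  have h5 : Real.exp 2 = Real.exp 1 * Real.exp 1 := by rw [← Real.exp_add]; norm_num
  have h6 : (7.389 : ℝ) < Real.exp 2 := by rw [h5]; nlinarith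
  have h7 : Real.exp (-2) < 0.13534 := by
    rw [Real.exp_neg, inv_lt_comm₀ (Real.exp_pos _) (by norm_num)]
    refine lt_trans ?_ h6
    norm_num
  have h8 : Real.exp (-4) = Real.exp (-2) * Real.exp (-2) := by rw [← Real.exp_add]; norm_num
  have h9 : Real.exp (-4) < 0.01832 := by
    rw [h8]
    nlinarith [Real.exp_pos (-2)]
  linarith

end Pool.Agent.H41.KG
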