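import Pool.Agent.H41.KG.Defs
import Pool.Agent.H41.KS.Len
import Pool.Agent.H41.SZ.Mod
import Pool.Agent.H41.PM.Sys

/-! KG-NUM: thin modifications preserve the distribution of the integers. -/

set_option autoImplicit false

open MeasureTheory Filter Topology Set

namespace Pool.Agent.H41.KG

open Pool.Agent.H41.BC (g tr NN q1)
open Pool.Agent.H41.KS (Cl lw Pr zz m1 m2 e2 ph)

namespace NumAux

theorem smono {α : ℕ → ℝ} {W : ℕ → ℝ} (hW : ∀ n, W n ∈ Ioc (α n) (α (n + 1))) : StrictMono W :=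
  strictMono_nat_of_lt_succ fun n => (hW n).2.trans_lt (hW (n + 1)).1

theorem inj {α : ℕ → ℝ} {W : ℕ → ℝ} (hW : ∀ n, W n ∈ Ioc (α n) (α (n + 1))) :
    Function.Injective fun n => Real.exp (W n) :=
  (Real.exp_strictMono.comp (smono hW)).injective

theorem num_range {W : ℕ → ℝ} (hinj : Function.Injective fun n => Real.exp (W n)) (x : ℝ) :
    SZ.num (range fun n => Real.exp (W n)) x = NN W x := by
  let e : ℕ ↪ ℝ := ⟨fun n => Real.exp (W n), hinj⟩
  have e1 : SZ.ints (range fun n => Real.exp (W n)) x = Finsupp.embDomain e '' {a : ℕ →₀ ℕ | Real.exp (BC.lg W a) ≤ x} := by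
    ext a
    constructor
    · rintro ⟨h1, h2⟩
      have hs : (a.support : Set ℝ) ⊆ range e := fun p hp =>
        h1 p (Finsupp.mem_support_iff.1 (Finset.mem_coe.1 hp))
      have h3 := Finsupp.embDomain_comapDomain hs
      refine ⟨_, ?_, h3⟩
      show Real.exp (BC.lg W _) ≤ x
      rw [PM.SysAux.exp_lg]
      rw [← h3, Finsupp.prod_embDomain] at h2
      exact h2
    · rintro ⟨b, hb, rfl⟩
      refine ⟨fun p hp => ?_, ?_⟩
      · by_contra hcon
        exact hp (Finsupp.embDomain_of_notMem_range _ _ _ hcon)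
      · rw [Finsupp.prod_embDomain]
        have hb' : Real.exp (BC.lg W b) ≤ x := hb
        rw [PM.SysAux.exp_lg] at hb'
        exact hb'
  rw [SZ.num, e1, Set.ncard_image_of_injective _ (Finsupp.embDomain_injective e)]
  rfl

theorem isSys {α : ℕ → ℝ} (H : Cl α) {W : ℕ → ℝ} (hW : ∀ n, W n ∈ Ioc (α n) (α (n + 1))) :
    SZ.IsSys (range fun n => Real.exp (W n)) := by
  refine ⟨?_, fun x => ?_⟩
  · rintro p ⟨n, rfl⟩
    exact Real.one_lt_exp_iff.2 (by linarith [(hW n).1, H.four_le n])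
  · refine ((Set.finite_Iic (⌊x⌋₊)).image fun n => Real.exp (W n)).subset ?_
    rintro p ⟨⟨n, rfl⟩, hn⟩
    refine ⟨n, ?_, rfl⟩
    have h1 : Real.exp (W n) ≤ x := hn
    have h2 := KS.idx H n
    have h3 : Real.exp (α n) ≤ Real.exp (W n) := Real.exp_le_exp.2 (hW n).1.le
    exact Nat.le_floor (h2.trans (h3.trans h1))

theorem summ {α : ℕ → ℝ} {W : ℕ → ℝ} (hW : ∀ n, W n ∈ Ioc (α n) (α (n + 1))) {E : Set ℕ} {σ : ℝ} (hσ : 0 < σ)
    (h : Summable (Set.indicator E fun n => Real.exp (-(σ * α n)))) :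
    Summable (Set.indicator ((fun n => Real.exp (W n)) '' E) fun d : ℝ => d ^ (-σ)) := by
  have hinj := inj hW
  rw [← hinj.summable_iff]
  · refine h.of_nonneg_of_le (fun n => ?_) fun n => ?_
    · exact Set.indicator_nonneg (fun d hd => by
        obtain ⟨m, _, rfl⟩ := hd
        exact Real.rpow_nonneg (Real.exp_pos _).le _) _
    · show Set.indicator ((fun n => Real.exp (W n)) '' E) (fun d : ℝ => d ^ (-σ)) (Real.exp (W n)) ≤ _
      by_cases hn : n ∈ E
      · rw [Set.indicator_of_mem hn, Set.indicator_of_mem (show Real.exp (W n) ∈ (fun n => Real.exp (W n)) '' E from ⟨n, hn, rfl⟩),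
          ← Real.exp_mul]
        refine Real.exp_le_exp.2 ?_
        nlinarith [(hW n).1]
      · rw [Set.indicator_of_notMem hn, Set.indicator_of_notMem]
        rintro ⟨m, hm, he⟩
        exact hn (hinj he ▸ hm)
  · intro d hd
    rw [Set.indicator_of_notMem]
    rintro ⟨m, _, rfl⟩
    exact hd ⟨m, rfl⟩

end NumAux

open NumAux

theorem num_mod {α : ℕ → ℝ} (H : Cl α) {W W' : ℕ → ℝ} (hW : ∀ n, W n ∈ Ioc (α n) (α (n + 1)))
    (hW' : ∀ n, W' n ∈ Ioc (α n) (α (n + 1)))
    (hN : ∃ c : ℝ, 0 < c ∧ ∀ ε : ℝ, 0 < ε → ∃ A : ℝ, ∀ x : ℝ, 1 ≤ x → |(NN W x : ℝ) - c * x| ≤ A * x ^ (1 / 2 + ε))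
    (ht : ∀ σ : ℝ, 1 / 2 < σ → Summable (Set.indicator {n | W n ≠ W' n} fun n => Real.exp (-(σ * α n)))) :
    ∃ c : ℝ, 0 < c ∧ ∀ ε : ℝ, 0 < ε → ∃ A : ℝ, ∀ x : ℝ, 1 ≤ x → |(NN W' x : ℝ) - c * x| ≤ A * x ^ (1 / 2 + ε) := by
  classical
  have h1 : SZ.NumOK (range fun n => Real.exp (W n)) := by
    obtain ⟨c, hc, hN⟩ := hN
    refine ⟨c, hc, fun ε hε => ?_⟩
    obtain ⟨A, hA⟩ := hN ε hε
    refine ⟨A, fun x hx => ?_⟩
    rw [num_range (inj hW)]
    exact hA x hx
  have hf : SZ.Few (symmDiff (range fun n => Real.exp (W n)) (range fun n => Real.exp (W' n))) := by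
    intro σ hσ
    have hs := ht σ hσ
    rw [← Function.comp_def (fun d : ℝ => d ^ (-σ)) (fun d : ↥(symmDiff (range fun n => Real.exp (W n)) (range fun n => Real.exp (W' n))) => (d : ℝ)), summable_subtype_iff_indicator]
    have s1 := summ hW (by linarith : (0 : ℝ) < σ) hs
    have s2 := summ hW' (by linarith : (0 : ℝ) < σ) hs
    have hnn : ∀ (E : Set ℕ) (V : ℕ → ℝ) (d : ℝ),
        0 ≤ Set.indicator ((fun n => Real.exp (V n)) '' E) (fun d : ℝ => d ^ (-σ)) d := by
      intro E V d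
      refine Set.indicator_nonneg (fun d hd => ?_) _
      obtain ⟨m, _, rfl⟩ := hd
      exact Real.rpow_nonneg (Real.exp_pos _).le _
    refine (s1.add s2).of_nonneg_of_le (fun d => ?_) fun d => ?_
    · refine Set.indicator_nonneg (fun d hd => ?_) _
      rcases hd with hd | hd
      · obtain ⟨m, rfl⟩ := hd.1
        exact Real.rpow_nonneg (Real.exp_pos _).le _
      · obtain ⟨m, rfl⟩ := hd.1
        exact Real.rpow_nonneg (Real.exp_pos _).le _
    · by_cases hd : d ∈ symmDiff (range fun n => Real.exp (W n)) (range fun n => Real.exp (W' n))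
      · rw [Set.indicator_of_mem hd]
        rcases hd with hd | hd
        · obtain ⟨⟨n, rfl⟩, h2⟩ := hd
          have hn : n ∈ {n | W n ≠ W' n} := by
            intro h3
            exact h2 ⟨n, by simp only [h3]⟩
          have := hnn {n | W n ≠ W' n} W' (Real.exp (W n))
          have h4 : (fun n => Real.exp (W n)) n ∈ (fun n => Real.exp (W n)) '' {n | W n ≠ W' n} := ⟨n, hn, rfl⟩
          rw [Set.indicator_of_mem h4]
          exact le_add_of_nonneg_right this
        · obtain ⟨⟨n, rfl⟩, h2⟩ := hd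
          have hn : n ∈ {n | W n ≠ W' n} := by
            intro h3
            exact h2 ⟨n, by simp only [h3]⟩
          have := hnn {n | W n ≠ W' n} W (Real.exp (W' n))
          have h4 : (fun n => Real.exp (W' n)) n ∈ (fun n => Real.exp (W' n)) '' {n | W n ≠ W' n} := ⟨n, hn, rfl⟩
          rw [Set.indicator_of_mem h4]
          exact le_add_of_nonneg_left this
      · rw [Set.indicator_of_notMem hd]
        exact add_nonneg (hnn _ _ _) (hnn _ _ _)
  obtain ⟨c, hc, h2⟩ := SZ.modify (isSys H hW) (isSys H hW') h1 hf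
  refine ⟨c, hc, fun ε hε => ?_⟩
  obtain ⟨A, hA⟩ := h2 ε hε
  refine ⟨A, fun x hx => ?_⟩
  rw [← num_range (inj hW')]
  exact hA x hx

end Pool.Agent.H41.KG
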