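import Pool.Agent.H41.KG.Defs
import Pool.Agent.H41.KS.Len

/-! # Project KG, stub KG-SC: existence of the sparse scales (helper10) -/

set_option autoImplicit false

open MeasureTheory Filter Topology Set

namespace Pool.Agent.H41.KG

open Pool.Agent.H41.BC (g tr NN q1)
open Pool.Agent.H41.KS (Cl lw Pr zz m1 m2 e2 ph)

/-- two bounds for large `x` -/
def SP (i : ℕ) (x : ℝ) : Prop :=
  Real.exp (x / 2) * x ^ i + 1 ≤ 2 * Real.exp (x / 2 + x / (i + 2)) ∧
    (Real.exp (x / 2) * x ^ i + 1) * (2 * (x + 1) * Real.exp (-x)) ≤ 1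

lemma sp_ev (i : ℕ) : ∀ᶠ x : ℝ in atTop, SP i x := by
  have e0 : Tendsto (fun x : ℝ => x ^ i * Real.exp (-((1 / ((i : ℝ) + 2)) * x))) atTop (𝓝 0) := by
    have h := tendsto_rpow_mul_exp_neg_mul_atTop_nhds_zero (i : ℝ) (1 / ((i : ℝ) + 2)) (by positivity)
    refine h.congr fun x => ?_
    rw [Real.rpow_natCast, neg_mul]
  have e1 : Tendsto (fun x : ℝ => x ^ (i + 1) * Real.exp (-((1 / 2 : ℝ) * x))) atTop (𝓝 0) := by
    have h := tendsto_rpow_mul_exp_neg_mul_atTop_nhds_zero ((i + 1 : ℕ) : ℝ) (1 / 2) (by norm_num)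
    refine h.congr fun x => ?_
    rw [Real.rpow_natCast, neg_mul]
  have e2 : Tendsto (fun x : ℝ => x ^ i * Real.exp (-((1 / 2 : ℝ) * x))) atTop (𝓝 0) := by
    have h := tendsto_rpow_mul_exp_neg_mul_atTop_nhds_zero (i : ℝ) (1 / 2) (by norm_num)
    refine h.congr fun x => ?_
    rw [Real.rpow_natCast, neg_mul]
  have e3 : Tendsto (fun x : ℝ => x ^ 1 * Real.exp (-((1 : ℝ) * x))) atTop (𝓝 0) := by
    have h := tendsto_rpow_mul_exp_neg_mul_atTop_nhds_zero ((1 : ℕ) : ℝ) 1 (by norm_num)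
    refine h.congr fun x => ?_
    rw [Real.rpow_natCast, neg_mul]
  have hlt1 : ∀ᶠ x : ℝ in atTop, x ^ i * Real.exp (-((1 / ((i : ℝ) + 2)) * x)) ≤ 1 :=
    e0.eventually (ge_mem_nhds (by norm_num))
  have hlt2 : ∀ᶠ x : ℝ in atTop, x ^ (i + 1) * Real.exp (-((1 / 2 : ℝ) * x)) ≤ 1 / 16 :=
    e1.eventually (ge_mem_nhds (by norm_num))
  have hlt3 : ∀ᶠ x : ℝ in atTop, x ^ 1 * Real.exp (-((1 : ℝ) * x)) ≤ 1 / 16 :=
    e3.eventually (ge_mem_nhds (by norm_num))
  filter_upwards [hlt1, hlt2, hlt3, eventually_ge_atTop (1 : ℝ)] with x h1 h2 h3 hx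
  refine ⟨?_, ?_⟩
  · have h4 : x ^ i ≤ Real.exp (x / (i + 2)) := by
      rw [Real.exp_neg, ← div_eq_mul_inv, div_le_one (Real.exp_pos _)] at h1
      refine h1.trans (le_of_eq ?_)
      congr 1
      ring
    have h5 : Real.exp (x / 2) * x ^ i ≤ Real.exp (x / 2 + x / (i + 2)) := by
      rw [Real.exp_add]
      exact mul_le_mul_of_nonneg_left h4 (Real.exp_pos _).le
    have h6 : (1 : ℝ) ≤ Real.exp (x / 2 + x / (i + 2)) := by
      apply Real.one_le_exp
      positivity
    linarith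
  · have h7 : (Real.exp (x / 2) * x ^ i + 1) * (2 * (x + 1) * Real.exp (-x)) =
        2 * ((x + 1) * (x ^ i * Real.exp (-((1 / 2 : ℝ) * x)))) + 2 * ((x + 1) * Real.exp (-x)) := by
      have h8 : Real.exp (x / 2) * Real.exp (-x) = Real.exp (-((1 / 2 : ℝ) * x)) := by
        rw [← Real.exp_add]
        congr 1
        ring
      rw [← h8]
      ring
    rw [h7]
    have h9 : (x + 1) * (x ^ i * Real.exp (-((1 / 2 : ℝ) * x))) ≤
        2 * (x ^ (i + 1) * Real.exp (-((1 / 2 : ℝ) * x))) := by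
      have : 0 ≤ x ^ i * Real.exp (-((1 / 2 : ℝ) * x)) := by positivity
      rw [pow_succ]
      nlinarith
    have h10 : (x + 1) * Real.exp (-x) ≤ 2 * (x ^ 1 * Real.exp (-((1 : ℝ) * x))) := by
      have : 0 ≤ Real.exp (-x) := (Real.exp_pos _).le
      rw [pow_one, one_mul]
      nlinarith
    linarith

/-- the number of the cells of a block -/
noncomputable def mm (α : ℕ → ℝ) (i a : ℕ) : ℕ := ⌈Real.exp (α a / 2) * α a ^ i⌉₊

lemma mm_ge (α : ℕ → ℝ) (i a : ℕ) : Real.exp (α a / 2) * α a ^ i ≤ mm α i a := Nat.le_ceil _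

lemma mm_le {α : ℕ → ℝ} (H : Cl α) (i a : ℕ) : (mm α i a : ℝ) ≤ Real.exp (α a / 2) * α a ^ i + 1 := by
  have h4 := H.four_le a
  exact (Nat.ceil_lt_add_one (by positivity)).le

lemma top_aux {α : ℕ → ℝ} (H : Cl α) (i a : ℕ) (hP : SP i (α a)) :
    α (a + mm α i a) ≤ α a + 1 := by
  set x := α a with hx
  have h4 : 4 ≤ x := H.four_le a
  set δ : ℝ := 2 * (x + 1) * Real.exp (-x) with hδ
  have hδ0 : 0 ≤ δ := by positivity
  have hM : (mm α i a : ℝ) * δ ≤ 1 :=
    (mul_le_mul_of_nonneg_right (mm_le H i a) hδ0).trans hP.2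
  have key : ∀ m : ℕ, m ≤ mm α i a → α (a + m) ≤ x + m * δ := by
    intro m
    induction m with
    | zero => intro _; simp [hx]
    | succ m ih =>
      intro hm
      have h1 := ih (by omega)
      have hmM : (m : ℝ) ≤ mm α i a := by exact_mod_cast (by omega : m ≤ mm α i a)
      have h2 : α (a + m) ≤ x + 1 := h1.trans (by nlinarith)
      have h3 : x ≤ α (a + m) := by rw [hx]; exact H.alpha_mono.monotone (by omega)
      have h5 := KS.len H (a + m)
      have h6 : 2 * α (a + m) * Real.exp (-α (a + m)) ≤ δ := by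
        rw [hδ]
        have h7 : Real.exp (-α (a + m)) ≤ Real.exp (-x) := Real.exp_le_exp.2 (by linarith)
        have h8 : 0 ≤ Real.exp (-α (a + m)) := (Real.exp_pos _).le
        calc 2 * α (a + m) * Real.exp (-α (a + m)) ≤ 2 * (x + 1) * Real.exp (-α (a + m)) :=
              mul_le_mul_of_nonneg_right (by linarith) h8
          _ ≤ 2 * (x + 1) * Real.exp (-x) := mul_le_mul_of_nonneg_left h7 (by linarith)
      have h9 : a + (m + 1) = a + m + 1 := by omega
      rw [h9]
      push_cast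
      linarith
  have h := key _ le_rfl
  linarith

theorem exists_scale {α : ℕ → ℝ} (H : Cl α) : ∃ a M : ℕ → ℕ, Scale α a M := by
  have key : ∀ (i b : ℕ) (y : ℝ), ∃ a' : ℕ, SP i (α a') ∧ y ≤ α a' ∧ b ≤ a' := by
    intro i b y
    have h := ((H.tendsto.eventually (sp_ev i)).and
      ((H.tendsto.eventually_ge_atTop y).and (eventually_ge_atTop b))).exists
    obtain ⟨a', h1, h2, h3⟩ := h
    exact ⟨a', h1, h2, h3⟩
  choose F hF1 hF2 hF3 using key
  let st : ℕ → ℕ × ℕ := fun i => Nat.rec (motive := fun _ => ℕ × ℕ) (F 0 0 10, 0)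
    (fun i s => (F (i + 1) (s.1 + mm α i s.1)
      (max (6 * α s.1 + 10) (max (2 * ((s.2 + mm α i s.1 : ℕ) : ℝ)) ((i : ℝ) + 1 + 10))), s.2 + mm α i s.1)) i
  have st0 : st 0 = (F 0 0 10, 0) := rfl
  have sts : ∀ i, st (i + 1) = (F (i + 1) ((st i).1 + mm α i (st i).1)
      (max (6 * α (st i).1 + 10) (max (2 * (((st i).2 + mm α i (st i).1 : ℕ) : ℝ)) ((i : ℝ) + 1 + 10))),
      (st i).2 + mm α i (st i).1) := fun i => rfl
  set a : ℕ → ℕ := fun i => (st i).1 with ha
  set M : ℕ → ℕ := fun i => mm α i (a i) with hM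
  have hS : ∀ i, (st i).2 = ∑ l ∈ Finset.range i, M l := by
    intro i
    induction i with
    | zero => rw [st0]; simp
    | succ i ih => rw [sts, Finset.sum_range_succ, ← ih]
  have hmax : ∀ i, max (6 * α (a i) + 10) (max (2 * (((st i).2 + M i : ℕ) : ℝ)) ((i : ℝ) + 1 + 10)) ≤ α (a (i + 1)) := by
    intro i
    have : a (i + 1) = F (i + 1) (a i + M i)
      (max (6 * α (a i) + 10) (max (2 * (((st i).2 + M i : ℕ) : ℝ)) ((i : ℝ) + 1 + 10))) := by
      simp only [ha, sts, hM]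
    rw [this]
    exact hF2 _ _ _
  have hP : ∀ i, SP i (α (a i)) := by
    intro i
    cases i with
    | zero => exact hF1 _ _ _
    | succ i => exact hF1 _ _ _
  have hlarge : ∀ i : ℕ, (i : ℝ) + 10 ≤ α (a i) := by
    intro i
    cases i with
    | zero =>
      have h : (10 : ℝ) ≤ α (a 0) := hF2 0 0 10
      simpa using h
    | succ i =>
      have := (le_max_right _ _).trans ((le_max_right _ _).trans (hmax i))
      push_cast
      linarith
  refine ⟨a, M, ?_, ?_, ?_, ?_, ?_, ?_, ?_⟩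
  · exact hlarge
  · exact fun i => mm_ge α i (a i)
  · exact fun i => (le_max_left _ _).trans (hmax i)
  · exact fun i => hF3 _ _ _
  · intro i
    cases i with
    | zero => simpa using (by linarith [H.four_le (a 0)] : (0 : ℝ) ≤ α (a 0))
    | succ i =>
      have h1 := (le_max_left _ _).trans ((le_max_right _ _).trans (hmax i))
      rw [hS i] at h1
      rw [Finset.sum_range_succ]
      push_cast at h1
      exact h1
  · exact fun i => top_aux H i (a i) (hP i)
  · intro σ hσ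
    have hc : 0 < (σ - 1 / 2) / 2 := by linarith
    have hsum : Summable fun i : ℕ => 2 * Real.exp (-((σ - 1 / 2) / 2)) ^ i := by
      refine Summable.mul_left 2 (summable_geometric_of_lt_one (Real.exp_pos _).le ?_)
      rw [Real.exp_lt_one_iff]
      linarith
    refine Summable.of_norm_bounded_eventually_nat hsum ?_
    have hlim : Tendsto (fun i : ℕ => 1 / ((i : ℝ) + 2)) atTop (𝓝 0) := by
      have h1 : Tendsto (fun i : ℕ => (i : ℝ) + 2) atTop atTop :=
        tendsto_atTop_add_const_right _ _ tendsto_natCast_atTop_atTop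
      have h2 := h1.inv_tendsto_atTop
      refine h2.congr fun i => ?_
      simp
    have hev : ∀ᶠ i : ℕ in atTop, 1 / ((i : ℝ) + 2) ≤ (σ - 1 / 2) / 2 := hlim.eventually (ge_mem_nhds hc)
    filter_upwards [hev] with i hi
    have hx := hlarge i
    have hx0 : 0 ≤ α (a i) := by have := H.four_le (a i); linarith
    rw [Real.norm_of_nonneg (by positivity)]
    have h1 : (M i : ℝ) ≤ 2 * Real.exp (α (a i) / 2 + α (a i) / (i + 2)) :=
      (mm_le H i (a i)).trans (hP i).1
    calc (M i : ℝ) * Real.exp (-(σ * α (a i))) ≤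
        2 * Real.exp (α (a i) / 2 + α (a i) / (i + 2)) * Real.exp (-(σ * α (a i))) :=
          mul_le_mul_of_nonneg_right h1 (Real.exp_pos _).le
      _ = 2 * Real.exp (α (a i) / 2 + α (a i) / (i + 2) + -(σ * α (a i))) := by
          rw [mul_assoc, ← Real.exp_add]
      _ ≤ 2 * Real.exp (i * (-((σ - 1 / 2) / 2))) := by
          refine mul_le_mul_of_nonneg_left (Real.exp_le_exp.2 ?_) (by norm_num)
          have h2 : α (a i) / (i + 2) ≤ α (a i) * ((σ - 1 / 2) / 2) := by
            rw [div_eq_mul_one_div]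
            exact mul_le_mul_of_nonneg_left hi hx0
          have h3 : (i : ℝ) * ((σ - 1 / 2) / 2) ≤ α (a i) * ((σ - 1 / 2) / 2) :=
            mul_le_mul_of_nonneg_right (by linarith) hc.le
          linarith
      _ = 2 * Real.exp (-((σ - 1 / 2) / 2)) ^ i := by
          rw [Real.exp_nat_mul]

end Pool.Agent.H41.KG
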