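import Pool.Agent.H41.KG.Defs
import Pool.Agent.H41.KS.Mom
import Pool.Agent.H41.KS.Len
import Pool.Agent.H41.KS.Prob

/-! # Project KG, KG-VAR (helper51): the second moment of the logarithm -/

set_option autoImplicit false

open MeasureTheory Filter Topology Set ProbabilityTheory

namespace Pool.Agent.H41.KG

open Pool.Agent.H41.BC (g tr NN q1 law2 PP2 law_mem)
open Pool.Agent.H41.KS (Cl lw Pr zz m1 m2 e2 ph)

namespace VarAux

/-- the logarithm of one factor up to the third order -/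
lemma log3 {z : ℂ} (hz : ‖z‖ ≤ 1 / 2) :
    |Real.log ‖(1 - z)⁻¹‖ - z.re - (z ^ 2).re / 2| ≤ ‖z‖ ^ 3 := by
  have hz1 : ‖-z‖ < 1 := by
    rw [norm_neg]
    linarith
  have h1 := Complex.norm_log_sub_logTaylor_le 2 hz1
  rw [norm_neg] at h1
  have h2 : Complex.logTaylor (2 + 1) (-z) = -z - z ^ 2 / 2 := by
    rw [Complex.logTaylor_succ, Complex.logTaylor_succ, Complex.logTaylor_succ,
      Complex.logTaylor_zero]
    simp
    ring
  rw [h2] at h1
  have h3 : Real.log ‖(1 - z)⁻¹‖ - z.re - (z ^ 2).re / 2 =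
      -(Complex.log (1 + -z) - (-z - z ^ 2 / 2)).re := by
    rw [norm_inv, Real.log_inv, Complex.sub_re, Complex.log_re]
    have e1 : (1 : ℂ) + -z = 1 - z := by ring
    have e2 : (-z - z ^ 2 / 2).re = -z.re - (z ^ 2).re / 2 := by
      simp
    rw [e1, e2]
    ring
  rw [h3, abs_neg]
  refine (Complex.abs_re_le_norm _).trans (h1.trans ?_)
  have h4 : (1 - ‖z‖)⁻¹ ≤ 2 := by
    rw [inv_le_comm₀ (by linarith) (by norm_num)]
    linarith
  have h5 : (0 : ℝ) ≤ ‖z‖ ^ 3 := by positivity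
  have h6 : (0 : ℝ) ≤ (1 - ‖z‖)⁻¹ := inv_nonneg.2 (by linarith)
  push_cast
  rw [div_le_iff₀ (by norm_num)]
  nlinarith

lemma zz_half (t w : ℝ) : ‖zz t w‖ ≤ 1 / 2 := by
  rw [zz, Complex.norm_exp]
  have h1 : (-((1 / 2 + (t : ℂ) * Complex.I) * ((max w 4 : ℝ) : ℂ))).re = -(max w 4 / 2) := by
    simp
    ring
  rw [h1]
  have h2 : (2 : ℝ) ≤ max w 4 / 2 := by
    have := le_max_right w 4
    linarith
  have h3 : Real.exp (-(max w 4 / 2)) ≤ Real.exp (-1) := Real.exp_le_exp.2 (by linarith)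
  refine h3.trans ?_
  rw [Real.exp_neg, inv_le_comm₀ (Real.exp_pos _) (by norm_num)]
  have := Real.add_one_le_exp (1 : ℝ)
  linarith

lemma zz_cont (t : ℝ) : Continuous fun w : ℝ => zz t w := by
  unfold zz
  fun_prop

lemma log_bd (t w : ℝ) : |Real.log ‖(1 - zz t w)⁻¹‖| ≤ 2 * ‖zz t w‖ := by
  have hz := zz_half t w
  have h1 := abs_le.1 (log3 hz)
  have h2 := abs_le.1 (Complex.abs_re_le_norm (zz t w))
  have h3 := abs_le.1 (Complex.abs_re_le_norm (zz t w ^ 2))
  rw [norm_pow] at h3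
  have h0 : 0 ≤ ‖zz t w‖ := norm_nonneg _
  have h4 : ‖zz t w‖ ^ 2 ≤ ‖zz t w‖ / 2 := by nlinarith
  have h5 : ‖zz t w‖ ^ 3 ≤ ‖zz t w‖ / 4 := by
    have : ‖zz t w‖ ^ 3 = ‖zz t w‖ ^ 2 * ‖zz t w‖ := by ring
    nlinarith
  rw [abs_le]
  constructor <;> linarith [h1.1, h1.2, h2.1, h2.2, h3.1, h3.2]

lemma yy_meas (α : ℕ → ℝ) (n : ℕ) (t : ℝ) : Measurable fun w : ℝ => YY α n t w := by
  unfold YY
  refine ((Real.measurable_log.comp ?_).sub_const _).sub_const _
  exact ((measurable_const.sub (zz_cont t).measurable).inv).norm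

lemma yy_bd (α : ℕ → ℝ) (n : ℕ) (t w : ℝ) :
    |YY α n t w| ≤ 2 * ‖zz t w‖ + ‖m1 α n t‖ + ‖m2 α n t‖ / 2 := by
  have h1 := abs_le.1 (log_bd t w)
  have h2 := abs_le.1 (Complex.abs_re_le_norm (m1 α n t))
  have h3 := abs_le.1 (Complex.abs_re_le_norm (m2 α n t))
  unfold YY
  rw [abs_le]
  constructor <;> linarith [h1.1, h1.2, h2.1, h2.2, h3.1, h3.2]

variable {α : ℕ → ℝ}

lemma yy_int (H : Cl α) (n : ℕ) (t : ℝ) : |∫ w, YY α n t w ∂(lw α n)| ≤ Real.exp (-(3 / 2 * α n)) := by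
  have hp := Pool.Agent.H41.BC.law_prob H n
  have hb : ∀ f : ℝ → ℝ, Measurable f → (∃ B : ℝ, ∀ w, |f w| ≤ B) → Integrable f (lw α n) := by
    rintro f hf ⟨B, hB⟩
    exact Integrable.of_bound hf.aestronglyMeasurable B (ae_of_all _ fun w => by
      rw [Real.norm_eq_abs]; exact hB w)
  have i1 : Integrable (fun w => Real.log ‖(1 - zz t w)⁻¹‖) (lw α n) := by
    refine hb _ ?_ ⟨2, fun w => (log_bd t w).trans (by linarith [zz_half t w])⟩
    exact Real.measurable_log.comp ((measurable_const.sub (zz_cont t).measurable).inv).norm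
  have i2 : Integrable (fun w => (zz t w).re) (lw α n) := by
    refine hb _ (Complex.measurable_re.comp (zz_cont t).measurable) ⟨1, fun w => ?_⟩
    exact (Complex.abs_re_le_norm _).trans (by linarith [zz_half t w])
  have i3 : Integrable (fun w => (zz t w ^ 2).re) (lw α n) := by
    refine hb _ (Complex.measurable_re.comp ((zz_cont t).measurable.pow_const 2)) ⟨1, fun w => ?_⟩
    refine (Complex.abs_re_le_norm _).trans ?_
    rw [norm_pow]
    have := zz_half t w
    have h0 := norm_nonneg (zz t w)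
    nlinarith
  have e1 : ∫ w, YY α n t w ∂(lw α n) =
      ∫ w, (Real.log ‖(1 - zz t w)⁻¹‖ - (zz t w).re - (zz t w ^ 2).re / 2) ∂(lw α n) := by
    have i12 : Integrable (fun w => Real.log ‖(1 - zz t w)⁻¹‖ - (zz t w).re) (lw α n) := i1.sub i2
    have i1c : Integrable (fun w => Real.log ‖(1 - zz t w)⁻¹‖ - (m1 α n t).re) (lw α n) :=
      i1.sub (integrable_const _)
    have i3d : Integrable (fun w => (zz t w ^ 2).re / 2) (lw α n) := i3.div_const 2
    rw [integral_sub i12 i3d, integral_sub i1 i2, integral_div, KS.mom1 H, KS.mom2 H]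
    unfold YY
    rw [integral_sub i1c (integrable_const _), integral_sub i1 (integrable_const _),
      integral_const, integral_const]
    simp
  rw [e1, ← Real.norm_eq_abs]
  have h2 := norm_integral_le_of_norm_le_const (μ := lw α n)
    (f := fun w => Real.log ‖(1 - zz t w)⁻¹‖ - (zz t w).re - (zz t w ^ 2).re / 2)
    (C := Real.exp (-(3 / 2 * α n))) (by
      filter_upwards [law_mem (α := α) (β := fun n => α (n + 1)) (ρ := fun _ => g) n] with w hw
      rw [Real.norm_eq_abs]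
      refine (log3 (zz_half t w)).trans ?_
      have h3 := (KS.zz_le H n t hw).2
      calc ‖zz t w‖ ^ 3 ≤ Real.exp (-(α n / 2)) ^ 3 := pow_le_pow_left₀ (norm_nonneg _) h3 3
        _ = Real.exp (-(3 / 2 * α n)) := by
          rw [← Real.exp_nat_mul]
          congr 1
          push_cast
          ring)
  refine h2.trans ?_
  rw [probReal_univ, mul_one]

lemma yy_sq (H : Cl α) (n : ℕ) (t : ℝ) : ∫ w, YY α n t w ^ 2 ∂(lw α n) ≤ 16 * Real.exp (-α n) := by
  have hp := Pool.Agent.H41.BC.law_prob H n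
  have h2 := norm_integral_le_of_norm_le_const (μ := lw α n)
    (f := fun w => YY α n t w ^ 2) (C := 16 * Real.exp (-α n)) (by
      filter_upwards [law_mem (α := α) (β := fun n => α (n + 1)) (ρ := fun _ => g) n] with w hw
      have h3 := (KS.zz_le H n t hw).2
      have h4 := yy_bd α n t w
      have h5 := KS.m1_le H n t
      have h6 := KS.m2_le H n t
      have h7 : Real.exp (-α n) ≤ Real.exp (-(α n / 2)) :=
        Real.exp_le_exp.2 (by linarith [H.four_le n])
      have h9 : 0 < Real.exp (-(α n / 2)) := Real.exp_pos _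
      have h8 : |YY α n t w| ≤ 4 * Real.exp (-(α n / 2)) := by linarith
      rw [Real.norm_eq_abs, abs_pow]
      calc |YY α n t w| ^ 2 ≤ (4 * Real.exp (-(α n / 2))) ^ 2 :=
            pow_le_pow_left₀ (abs_nonneg _) h8 2
        _ = 16 * Real.exp (-α n) := by
          rw [mul_pow, ← Real.exp_nat_mul]
          congr 1
          · norm_num
          · congr 1
            push_cast
            ring)
  rw [probReal_univ, mul_one] at h2
  exact (le_abs_self _).trans h2

end VarAux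

open VarAux

theorem var : ∃ C : ℝ, 0 ≤ C ∧ ∀ (α : ℕ → ℝ), Cl α → ∀ (N : ℕ) (s : Finset ℕ), s ⊆ Finset.range N → ∀ t : ℝ,
    ∫⁻ W, ENNReal.ofReal ((∑ n ∈ s, YY α n t (W n)) ^ 2) ∂(Pr α) ≤ ENNReal.ofReal (C * (1 + Real.log (α N))) := by
  refine ⟨100, by norm_num, fun α H N s hs t => ?_⟩
  have hP : IsProbabilityMeasure (Pr α) := Pool.Agent.H41.BC.PP_prob H
  have hl := fun k => Pool.Agent.H41.BC.law_prob H k
  set X : ℕ → (ℕ → ℝ) → ℝ := fun n W => YY α n t (W n) with hX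
  have hev : ∀ n, MeasurePreserving (fun W : ℕ → ℝ => W n) (Pr α) (lw α n) := fun n =>
    measurePreserving_eval_infinitePi (law2 α (fun n => α (n + 1)) (fun _ => g)) n
  have hXm : ∀ n, Measurable (X n) := fun n => (yy_meas α n t).comp (measurable_pi_apply n)
  have hXb : ∀ n W, |X n W| ≤ 1 + ‖m1 α n t‖ + ‖m2 α n t‖ / 2 := by
    intro n W
    have h1 := yy_bd α n t (W n)
    have h2 := zz_half t (W n)
    have : |X n W| = |YY α n t (W n)| := rfl
    linarith
  have hL : ∀ n, MemLp (X n) 2 (Pr α) := fun n =>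
    MemLp.of_bound (hXm n).aestronglyMeasurable _ (ae_of_all _ fun W => by
      rw [Real.norm_eq_abs]; exact hXb n W)
  have hind : iIndepFun (fun k (W : ℕ → ℝ) => X k W) (Pr α) :=
    iIndepFun_infinitePi (P := law2 α (fun n => α (n + 1)) (fun _ => g))
      (X := fun k w => YY α k t w) (fun n => yy_meas α n t)
  have hS : MemLp (∑ n ∈ s, X n) 2 (Pr α) := memLp_finsetSum' _ fun n _ => hL n
  have hvar : Var[∑ n ∈ s, X n; Pr α] = ∑ n ∈ s, Var[X n; Pr α] :=
    IndepFun.variance_sum (fun n _ => hL n) fun i _ j _ hij => hind.indepFun hij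
  have hmean : ∀ n, |∫ W, X n W ∂(Pr α)| ≤ Real.exp (-(3 / 2 * α n)) := by
    intro n
    have h1 : ∫ W, X n W ∂(Pr α) = ∫ w, YY α n t w ∂(lw α n) := by
      rw [← (hev n).map_eq, integral_map (hev n).measurable.aemeasurable
        (yy_meas α n t).aestronglyMeasurable]
    rw [h1]
    exact yy_int H n t
  have hv : ∀ n, Var[X n; Pr α] ≤ 16 * Real.exp (-α n) := by
    intro n
    refine (variance_le_expectation_sq (hXm n).aestronglyMeasurable).trans ?_
    have h1 : ∫ W, X n W ^ 2 ∂(Pr α) = ∫ w, YY α n t w ^ 2 ∂(lw α n) := by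
      rw [← (hev n).map_eq, integral_map (hev n).measurable.aemeasurable
        ((yy_meas α n t).pow_const 2).aestronglyMeasurable]
    refine le_trans (le_of_eq ?_) (yy_sq H n t)
    rw [← h1]
    rfl
  have hESum : ∫ W, (∑ n ∈ s, X n) W ∂(Pr α) = ∑ n ∈ s, ∫ W, X n W ∂(Pr α) := by
    simp only [Finset.sum_apply]
    exact integral_finsetSum _ fun n _ => (hL n).integrable (by norm_num)
  have h4 := H.four_le 0
  have hN4 := H.four_le N
  have hlogN : 0 ≤ Real.log (α N) := Real.log_nonneg (by linarith)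
  have hlog0 : 0 ≤ Real.log (α 0) := Real.log_nonneg (by linarith)
  have hs1 : ∑ n ∈ s, Real.exp (-α n) ≤ 3 * Real.log (α N) := by
    have h1 := KS.sum1 H (Nat.zero_le N)
    rw [← Finset.range_eq_Ico] at h1
    have h2 : ∑ n ∈ s, Real.exp (-α n) ≤ ∑ n ∈ Finset.range N, Real.exp (-α n) :=
      Finset.sum_le_sum_of_subset_of_nonneg hs fun n _ _ => (Real.exp_pos _).le
    linarith
  have hs2 : ∑ n ∈ s, Real.exp (-(3 / 2 * α n)) ≤ 10 := by
    have h1 := KS.sum32 H (Nat.zero_le N)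
    rw [← Finset.range_eq_Ico] at h1
    have h2 : ∑ n ∈ s, Real.exp (-(3 / 2 * α n)) ≤ ∑ n ∈ Finset.range N, Real.exp (-(3 / 2 * α n)) :=
      Finset.sum_le_sum_of_subset_of_nonneg hs fun n _ _ => (Real.exp_pos _).le
    have h3 : Real.exp (-(α 0 / 2)) ≤ 1 := Real.exp_le_one_iff.2 (by linarith)
    linarith
  have hint : Integrable (fun W => (∑ n ∈ s, X n) W ^ 2) (Pr α) := hS.integrable_sq
  have hE2 : ∫ W, (∑ n ∈ s, X n) W ^ 2 ∂(Pr α) ≤ 100 * (1 + Real.log (α N)) := by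
    have h1 := variance_eq_sub hS
    rw [hvar, hESum] at h1
    have h2 : ∑ n ∈ s, Var[X n; Pr α] ≤ 48 * Real.log (α N) := by
      refine (Finset.sum_le_sum fun n _ => hv n).trans ?_
      rw [← Finset.mul_sum]
      linarith
    have h3 : |∑ n ∈ s, ∫ W, X n W ∂(Pr α)| ≤ 10 :=
      (Finset.abs_sum_le_sum_abs _ _).trans ((Finset.sum_le_sum fun n _ => hmean n).trans hs2)
    have h5 : (∑ n ∈ s, ∫ W, X n W ∂(Pr α)) ^ 2 ≤ 100 := by
      rw [← sq_abs]
      have h0 := abs_nonneg (∑ n ∈ s, ∫ W, X n W ∂(Pr α))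
      nlinarith
    have h6 : ∫ W, (∑ n ∈ s, X n) W ^ 2 ∂(Pr α) = (Pr α)[(∑ n ∈ s, X n) ^ 2] := rfl
    rw [h6]
    linarith
  have h7 : ∀ W, (∑ n ∈ s, YY α n t (W n)) = (∑ n ∈ s, X n) W := by
    intro W
    rw [Finset.sum_apply]
  simp_rw [h7]
  rw [← ofReal_integral_eq_lintegral_ofReal hint (ae_of_all _ fun W => sq_nonneg _)]
  exact ENNReal.ofReal_le_ofReal hE2

end Pool.Agent.H41.KG
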