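import Pool.Agent.H41.KG.Defs
import Pool.Agent.H41.KS.Form
import Pool.Agent.H41.KS.Ee
import Pool.Agent.H41.KS.Mom
import Pool.Agent.H41.KS.Cty

/-! # Project KG, stub KG-YB: bounds for one factor (helper75) -/

set_option autoImplicit false

open MeasureTheory Filter Topology Set

namespace Pool.Agent.H41.KG

open Pool.Agent.H41.BC (g tr NN q1)
open Pool.Agent.H41.KS (Cl lw Pr zz m1 m2 e2 ph)

/-- the first order expansion of `log ‖(1 - z)⁻¹‖` -/
theorem yb_log {z : ℂ} (hz : ‖z‖ ≤ 1 / 2) : |Real.log ‖(1 - z)⁻¹‖ - z.re| ≤ ‖z‖ ^ 2 := by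
  have h1 := abs_le.1 (KS.frm_log hz)
  have h2 : |(z ^ 2).re| ≤ ‖z‖ ^ 2 := (Complex.abs_re_le_norm _).trans (by rw [norm_pow])
  have h2' := abs_le.1 h2
  have h3 : ‖z‖ ^ 3 ≤ ‖z‖ ^ 2 / 2 := by
    have h4 : ‖z‖ ^ 3 = ‖z‖ ^ 2 * ‖z‖ := by ring
    rw [h4]
    nlinarith [sq_nonneg ‖z‖]
  rw [abs_le]
  constructor <;> linarith [h1.1, h1.2, h2'.1, h2'.2]

theorem yb_le {α : ℕ → ℝ} (H : Cl α) {n : ℕ} {w : ℝ} (hw : w ∈ Ioc (α n) (α (n + 1))) (t : ℝ) :
    |YY α n t w| ≤ 1 := by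
  have h4 := H.four_le n
  have e1 : Real.exp (-(α n / 2)) ≤ 1 / 4 := by
    have h5 : Real.exp (-(α n / 2)) ≤ Real.exp (-2) := Real.exp_le_exp.2 (by linarith)
    have h6 : Real.exp (-2) = Real.exp (-1) * Real.exp (-1) := by rw [← Real.exp_add]; norm_num
    have h7 : Real.exp (-1) ≤ 1 / 2 := by
      rw [Real.exp_neg, inv_le_comm₀ (Real.exp_pos _) (by norm_num)]
      have := Real.add_one_le_exp 1
      linarith
    have h8 := Real.exp_pos (-1)
    nlinarith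
  have e2' : Real.exp (-α n) ≤ 1 / 16 := by
    have h6 : Real.exp (-α n) = Real.exp (-(α n / 2)) * Real.exp (-(α n / 2)) := by
      rw [← Real.exp_add]; ring_nf
    have h8 := Real.exp_pos (-(α n / 2))
    nlinarith
  have hz := (KS.zz_le H n t hw).2.trans e1
  have hL := abs_le.1 (yb_log (z := zz t w) (by linarith))
  have hr := abs_le.1 ((Complex.abs_re_le_norm (zz t w)).trans hz)
  have h1 := abs_le.1 ((Complex.abs_re_le_norm (m1 α n t)).trans ((KS.m1_le H n t).trans e1))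
  have h2 := abs_le.1 ((Complex.abs_re_le_norm (m2 α n t)).trans ((KS.m2_le H n t).trans e2'))
  have hsq : ‖zz t w‖ ^ 2 ≤ 1 / 16 := by nlinarith [norm_nonneg (zz t w)]
  unfold YY
  rw [abs_le]
  constructor <;> linarith [hL.1, hL.2, hr.1, hr.2, h1.1, h1.2, h2.1, h2.2]

theorem yb_blk {α : ℕ → ℝ} (H : Cl α) {n : ℕ} {x w t : ℝ} (hx : 10 ≤ x) (h1 : x ≤ α n)
    (h2 : α (n + 1) ≤ x + 1) (hw : w ∈ Ioc (α n) (α (n + 1))) (ht : Real.exp (2 * x) - 1 ≤ t)
    (hc : 9 / 10 ≤ Real.cos (t * w)) : Real.exp (-(x / 2)) / 2 ≤ YY α n t w := by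
  have h4 := H.four_le n
  have hmono := (H.alpha_mono (Nat.lt_succ_self n)).le
  obtain ⟨q, hq⟩ : ∃ q, q = Real.exp (-(x / 2)) := ⟨_, rfl⟩
  have hq0 : 0 < q := hq ▸ Real.exp_pos _
  have hE1 : Real.exp (-1) ≤ 2 / 5 := by
    rw [Real.exp_neg, inv_le_comm₀ (Real.exp_pos _) (by norm_num)]
    have := Real.exp_one_gt_d9
    linarith
  have hq1 : q ≤ 1 / 97 := by
    have h5 : q ≤ Real.exp (-5) := by rw [hq]; exact Real.exp_le_exp.2 (by linarith)
    have h6 : Real.exp (-5) = Real.exp (-1) ^ 5 := by rw [← Real.exp_nat_mul]; norm_num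
    have h7 : Real.exp (-1) ^ 5 ≤ (2 / 5) ^ 5 := pow_le_pow_left₀ (Real.exp_pos _).le hE1 5
    rw [h6] at h5
    norm_num at h7
    linarith
  have hhalf : 3 / 5 ≤ Real.exp (-(1 / 2)) := by
    have h5 : Real.exp (-(1 / 2)) ^ 2 = Real.exp (-1) := by rw [← Real.exp_nat_mul]; norm_num
    have h6 := Real.exp_neg_one_gt_d9
    have h7 := Real.exp_pos (-(1 / 2))
    by_contra h8
    push Not at h8
    have h9 : Real.exp (-(1 / 2)) ^ 2 < (3 / 5) ^ 2 := by
      apply pow_lt_pow_left₀ h8 h7.le (by norm_num)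
    rw [h5] at h9
    norm_num at h9
    linarith
  have hre : 54 / 100 * q ≤ (zz t w).re := by
    rw [KS.zz_eq (h4.trans hw.1.le), Complex.exp_re]
    have e1 : (-((1 / 2 + (t : ℂ) * Complex.I) * (w : ℂ))).re = -(w / 2) := by
      simp
      ring
    have e2' : (-((1 / 2 + (t : ℂ) * Complex.I) * (w : ℂ))).im = -(t * w) := by
      simp
    rw [e1, e2', Real.cos_neg]
    have e3 : q * Real.exp (-(1 / 2)) ≤ Real.exp (-(w / 2)) := by
      rw [hq, ← Real.exp_add]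
      exact Real.exp_le_exp.2 (by linarith [hw.2])
    have e4 : 3 / 5 * q ≤ Real.exp (-(w / 2)) := by nlinarith
    have e5 := Real.exp_pos (-(w / 2))
    nlinarith
  have hqx : Real.exp (-x) = q ^ 2 := by
    rw [hq, ← Real.exp_nat_mul]
    congr 1
    push_cast
    ring
  have hz := (KS.zz_le H n t hw).2
  have hz2 : ‖zz t w‖ ≤ q := by
    rw [hq]
    exact hz.trans (Real.exp_le_exp.2 (by linarith))
  have hsq : ‖zz t w‖ ^ 2 ≤ q ^ 2 := pow_le_pow_left₀ (norm_nonneg _) hz2 2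
  have hL := abs_le.1 (yb_log (z := zz t w) (by linarith))
  have hm2 := abs_le.1 ((Complex.abs_re_le_norm (m2 α n t)).trans ((KS.m2_le H n t).trans
    (show Real.exp (-α n) ≤ q ^ 2 by rw [← hqx]; exact Real.exp_le_exp.2 (by linarith))))
  -- the first mean
  have hqi : Real.exp (2 * x) = (q ^ 4)⁻¹ := by
    rw [hq, ← Real.exp_nat_mul, ← Real.exp_neg]
    congr 1
    push_cast
    ring
  have hq4 : q ^ 4 ≤ 1 / 2 := by
    have := pow_le_pow_left₀ hq0.le hq1 4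
    norm_num at this
    linarith
  have hq40 : 0 < q ^ 4 := by positivity
  have htl : (q ^ 4)⁻¹ / 2 ≤ t := by
    rw [hqi] at ht
    have h5 : 2 ≤ (q ^ 4)⁻¹ := by
      rw [le_inv_comm₀ (by norm_num) hq40]
      linarith
    linarith
  have ht0 : 0 < t := lt_of_lt_of_le (by positivity) htl
  have hm1 : ‖m1 α n t‖ ≤ 16 * q ^ 3 := by
    have him : ((1 / 2 + (t : ℂ) * Complex.I)).im = t := by simp
    have hres : ((1 / 2 + (t : ℂ) * Complex.I)).re = 1 / 2 := by simp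
    have h5 := KS.tr_osc (a := α n) (b := α (n + 1)) h4 hmono (by linarith)
      (s := 1 / 2 + (t : ℂ) * Complex.I) (by rw [hres]; norm_num) (by rw [him]; exact ht0.ne')
    rw [him, hres, abs_of_pos ht0] at h5
    have h6 : Real.exp ((1 - 1 / 2) * α n) ≤ 2 * q⁻¹ := by
      have h7 : Real.exp ((1 - 1 / 2) * α n) ≤ Real.exp (1 / 2) * Real.exp (x / 2) := by
        rw [← Real.exp_add]
        exact Real.exp_le_exp.2 (by linarith)
      have h8 : Real.exp (x / 2) = q⁻¹ := by rw [hq, ← Real.exp_neg, neg_neg]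
      have h9 : Real.exp (1 / 2) ≤ 2 := by
        have h10 : Real.exp (1 / 2) = (Real.exp (-(1 / 2)))⁻¹ := by rw [← Real.exp_neg, neg_neg]
        rw [h10, inv_le_comm₀ (Real.exp_pos _) (by norm_num)]
        linarith
      rw [h8] at h7
      exact h7.trans (mul_le_mul_of_nonneg_right h9 (inv_nonneg.2 hq0.le))
    have h7 : 4 * Real.exp ((1 - 1 / 2) * α n) / t ≤ 4 * (2 * q⁻¹) / ((q ^ 4)⁻¹ / 2) := by
      apply div_le_div₀ (by positivity) (by linarith) (by positivity) htl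
    have h8 : 4 * (2 * q⁻¹) / ((q ^ 4)⁻¹ / 2) = 16 * q ^ 3 := by
      field_simp
      ring
    rw [h8] at h7
    exact h5.trans h7
  have hm1' := abs_le.1 ((Complex.abs_re_le_norm (m1 α n t)).trans hm1)
  have hq2 : q ^ 2 ≤ q / 97 := by nlinarith
  have hq3 : q ^ 3 ≤ q / 9000 := by
    have : q ^ 3 = q * q ^ 2 := by ring
    rw [this]
    nlinarith
  rw [← hq]
  unfold YY
  linarith [hL.1, hm2.2, hm1'.2]

theorem yb_ct (α : ℕ → ℝ) (n : ℕ) : Continuous fun q : ℝ × ℝ => YY α n q.1 q.2 := by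
  unfold YY
  have h1 : Continuous fun q : ℝ × ℝ => (1 - zz q.1 q.2)⁻¹ :=
    (continuous_const.sub KS.cty_zz).inv₀ fun q => KS.cty_ne q.1 q.2
  have h2 : Continuous fun q : ℝ × ℝ => Real.log ‖(1 - zz q.1 q.2)⁻¹‖ :=
    h1.norm.log fun q => norm_ne_zero_iff.2 (inv_ne_zero (KS.cty_ne q.1 q.2))
  have h3 : Continuous fun q : ℝ × ℝ => (m1 α n q.1).re :=
    Complex.continuous_re.comp ((KS.cty_m1 α n).comp continuous_fst)
  have h4 : Continuous fun q : ℝ × ℝ => (m2 α n q.1).re :=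
    Complex.continuous_re.comp ((KS.cty_m2 α n).comp continuous_fst)
  exact (h2.sub h3).sub (h4.div_const 2)

theorem yb_meas (α : ℕ → ℝ) (n : ℕ) : Measurable fun q : ℝ × ℝ => YY α n q.1 q.2 :=
  (yb_ct α n).measurable

theorem yb_cont (α : ℕ → ℝ) (n : ℕ) (w : ℝ) : Continuous fun t : ℝ => YY α n t w :=
  (yb_ct α n).comp (f := fun t : ℝ => (t, w)) (by fun_prop)

end Pool.Agent.H41.KG

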