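import Pool.Agent.H41.KG.Ale
import Pool.Agent.H41.KG.Clt
import Pool.Agent.H41.KG.Num
import Pool.Agent.H41.KG.Sc
import Pool.Agent.H41.KG.Var
import Pool.Agent.H41.KG.Wm
import Pool.Agent.H41.KG.Yb

/-! # Project KG: the proved parts -/
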