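import Pool.Agent.H41.KS.Defs

/-! # Project KG: a system of generalised primes with the Riemann hypothesis and huge moments. Definitions. -/

set_option autoImplicit false

open MeasureTheory Filter Topology Set

namespace Pool.Agent.H41.KG

open Pool.Agent.H41.BC (g tr NN q1)
open Pool.Agent.H41.KS (Cl lw Pr zz m1 m2 e2 ph)

/-- the logarithm of the normalised `n`-th factor at `1/2 + it` -/
noncomputable def YY (α : ℕ → ℝ) (n : ℕ) (t w : ℝ) : ℝ :=
  Real.log ‖(1 - zz t w)⁻¹‖ - (m1 α n t).re - (m2 α n t).re / 2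

/-- the `i`-th block of cells -/
def blk (a M : ℕ → ℕ) (i : ℕ) : Finset ℕ := Finset.Ico (a i) (a i + M i)

/-- sparse blocks of cells; the block `i` has about `√x (log x)^i` cells near `x = exp (α (a i))` -/
structure Scale (α : ℕ → ℝ) (a M : ℕ → ℕ) : Prop where
  large : ∀ i : ℕ, (i : ℝ) + 10 ≤ α (a i)
  ge : ∀ i, Real.exp (α (a i) / 2) * α (a i) ^ i ≤ M i
  next : ∀ i, 6 * α (a i) + 10 ≤ α (a (i + 1))
  disj : ∀ i, a i + M i ≤ a (i + 1)
  prev : ∀ i, 2 * ∑ l ∈ Finset.range i, (M l : ℝ) ≤ α (a i)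
  top : ∀ i, α (a i + M i) ≤ α (a i) + 1
  thin : ∀ σ : ℝ, 1 / 2 < σ → Summable fun i => (M i : ℝ) * Real.exp (-(σ * α (a i)))

/-- the mesh of the lattice of the `i`-th block -/
noncomputable def hh (α : ℕ → ℝ) (a : ℕ → ℕ) (i : ℕ) : ℝ := Real.exp (-(α (a i)) - 2)

/-- the height which belongs to the `i`-th block -/
noncomputable def Tc (α : ℕ → ℝ) (a : ℕ → ℕ) (i : ℕ) : ℝ := Real.exp (2 * α (a i))

/-- the centre of the `i`-th window, a multiple of `2 π / hh` -/
noncomputable def tc (α : ℕ → ℝ) (a : ℕ → ℕ) (i : ℕ) : ℝ :=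
  2 * Real.pi * (⌈Tc α a i * hh α a i / (2 * Real.pi)⌉₊ : ℕ) / hh α a i

/-- half of the length of the `i`-th window -/
noncomputable def et (α : ℕ → ℝ) (a : ℕ → ℕ) (i : ℕ) : ℝ := 1 / (4 * (α (a i) + 1))

open Classical in
/-- the modified system: in the block `i` the member of the `n`-th cell is the last multiple of `hh i` in this cell -/
noncomputable def WM (α : ℕ → ℝ) (a M : ℕ → ℕ) (W : ℕ → ℝ) (n : ℕ) : ℝ :=
  if h : ∃ i, n ∈ blk a M i then hh α a h.choose * (⌊α (n + 1) / hh α a h.choose⌋ : ℤ) else W n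

end Pool.Agent.H41.KG
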