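import Pool.Agent.H41.KG.All
import Pool.Agent.H41.KS.Avg

/-! # Project KG: assembly, part one: the random part -/

set_option autoImplicit false

open MeasureTheory Filter Topology Set

namespace Pool.Agent.H41.KG

open Pool.Agent.H41.BC (g tr NN q1)
open Pool.Agent.H41.KS (Cl lw Pr zz m1 m2 e2 ph)

attribute [local irreducible] YY

/-- the window -/
def Vw (α : ℕ → ℝ) (a : ℕ → ℕ) (i : ℕ) : Set ℝ := Icc (tc α a i - et α a i) (tc α a i + et α a i)

lemma et_pos {α : ℕ → ℝ} (H : Cl α) (a : ℕ → ℕ) (i : ℕ) : 0 < et α a i := by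
  have := H.four_le (a i)
  unfold et
  positivity

lemma vw_vol (α : ℕ → ℝ) (a : ℕ → ℕ) (i : ℕ) : volume (Vw α a i) = ENNReal.ofReal (2 * et α a i) := by
  unfold Vw
  rw [Real.volume_Icc]
  congr 1
  ring

lemma vw_mem {α : ℕ → ℝ} {a : ℕ → ℕ} {i : ℕ} {t : ℝ} (h : t ∈ Vw α a i) : |t - tc α a i| ≤ et α a i := by
  rw [abs_le]
  constructor <;> linarith [h.1, h.2]

/-- the random part of the logarithm, squared and integrated over the window -/
noncomputable def BB (α : ℕ → ℝ) (a M N : ℕ → ℕ) (i : ℕ) (W : ℕ → ℝ) : ENNReal :=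
  ∫⁻ t in Vw α a i, ENNReal.ofReal ((∑ n ∈ Finset.range (N i) \ blk a M i, YY α n t (W n)) ^ 2)

lemma bb_meas_aux (α : ℕ → ℝ) (s : Finset ℕ) :
    Measurable fun q : ℝ × (ℕ → ℝ) => ENNReal.ofReal ((∑ n ∈ s, YY α n q.1 (q.2 n)) ^ 2) := by
  have hn : ∀ n : ℕ, Measurable fun q : ℝ × (ℕ → ℝ) => q.2 n := fun n => (measurable_pi_apply n).comp measurable_snd
  have h1 : ∀ n : ℕ, Measurable fun q : ℝ × (ℕ → ℝ) => YY α n q.1 (q.2 n) := fun n =>
    (yb_meas α n).comp (measurable_fst.prodMk (hn n))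
  exact ((Finset.measurable_fun_sum _ fun n _ => h1 n).pow_const 2).ennreal_ofReal

lemma bb_meas_aux2 (α : ℕ → ℝ) (s : Finset ℕ) :
    Measurable (Function.uncurry fun (W : ℕ → ℝ) (t : ℝ) => ENNReal.ofReal ((∑ n ∈ s, YY α n t (W n)) ^ 2)) := by
  have hn : ∀ n : ℕ, Measurable fun q : (ℕ → ℝ) × ℝ => q.1 n := fun n => (measurable_pi_apply n).comp measurable_fst
  have h1 : ∀ n : ℕ, Measurable fun q : (ℕ → ℝ) × ℝ => YY α n q.2 (q.1 n) := fun n =>
    (yb_meas α n).comp (measurable_snd.prodMk (hn n))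
  exact ((Finset.measurable_fun_sum _ fun n _ => h1 n).pow_const 2).ennreal_ofReal

theorem bb_ae {α : ℕ → ℝ} (H : Cl α) (a M N : ℕ → ℕ) : ∃ C : ℝ, 0 ≤ C ∧ ∀ᵐ W ∂(Pr α), ∀ᶠ i : ℕ in atTop,
    BB α a M N i W ≤ ENNReal.ofReal (((i : ℝ) + 1) ^ 2 * (2 * et α a i * (C * (1 + Real.log (α (N i)))))) := by
  have := Pool.Agent.H41.BC.PP_prob H
  obtain ⟨C, hC0, hC⟩ := var
  refine ⟨C + 1, by linarith, ?_⟩
  have hlog : ∀ i, 0 ≤ Real.log (α (N i)) := fun i => Real.log_nonneg (by linarith [H.four_le (N i)])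
  have het := fun i => et_pos H a i
  set Kr : ℕ → ℝ := fun i => 2 * et α a i * ((C + 1) * (1 + Real.log (α (N i)))) with hKr
  have hK0 : ∀ i, 0 < Kr i := fun i => by
    have := het i; have := hlog i
    simp only [hKr]; positivity
  set u : ℕ → ENNReal := fun i => ENNReal.ofReal ((((i : ℝ) + 1) ^ 2 * Kr i)⁻¹) with hu
  have hBm : ∀ i, Measurable fun W => BB α a M N i W := fun i =>
    (bb_meas_aux α _).lintegral_prod_left'
  have hB : ∀ i, ∫⁻ W, BB α a M N i W ∂(Pr α) ≤ ENNReal.ofReal (Kr i) := by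
    intro i
    unfold BB
    rw [lintegral_lintegral_swap (bb_meas_aux2 α _).aemeasurable]
    calc ∫⁻ t in Vw α a i, ∫⁻ W, ENNReal.ofReal ((∑ n ∈ Finset.range (N i) \ blk a M i, YY α n t (W n)) ^ 2) ∂(Pr α) ≤
          ∫⁻ t in Vw α a i, ENNReal.ofReal (C * (1 + Real.log (α (N i)))) :=
          lintegral_mono fun t => hC α H (N i) _ Finset.sdiff_subset t
      _ = ENNReal.ofReal (C * (1 + Real.log (α (N i)))) * ENNReal.ofReal (2 * et α a i) := by
          rw [setLIntegral_const, vw_vol]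
      _ = ENNReal.ofReal (C * (1 + Real.log (α (N i))) * (2 * et α a i)) := by
          have h0 : 0 ≤ C * (1 + Real.log (α (N i))) := by have := hlog i; positivity
          rw [ENNReal.ofReal_mul h0]
      _ ≤ ENNReal.ofReal (Kr i) := by
          refine ENNReal.ofReal_le_ofReal ?_
          simp only [hKr]
          have h1 := het i
          have h2 := hlog i
          nlinarith [mul_pos h1 (by linarith : 0 < 1 + Real.log (α (N i)))]
  have hsum : ∑' i, u i * ENNReal.ofReal (Kr i) ≠ ⊤ := by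
    have e : ∀ i : ℕ, u i * ENNReal.ofReal (Kr i) = ENNReal.ofReal (1 / ((i : ℝ) + 1) ^ 2) := by
      intro i
      simp only [hu]
      rw [← ENNReal.ofReal_mul (by have := hK0 i; positivity)]
      congr 1
      have := (hK0 i).ne'
      field_simp
    simp_rw [e]
    have hs : Summable fun i : ℕ => 1 / ((i : ℝ) + 1) ^ 2 := by
      have := (summable_nat_add_iff 1).2 (Real.summable_one_div_nat_pow.2 (by norm_num : 1 < 2))
      refine this.congr fun i => by push_cast; rfl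
    rw [← ENNReal.ofReal_tsum_of_nonneg (fun i => by positivity) hs]
    exact ENNReal.ofReal_ne_top
  have h1 : ∫⁻ W, ∑' i, u i * BB α a M N i W ∂(Pr α) ≠ ⊤ := by
    rw [lintegral_tsum fun i => ((hBm i).const_mul _).aemeasurable]
    refine ne_top_of_le_ne_top hsum (ENNReal.tsum_le_tsum fun i => ?_)
    rw [lintegral_const_mul _ (hBm i)]
    exact mul_le_mul_right (hB i) _
  have h2 := ae_lt_top (Measurable.tsum fun i => (hBm i).const_mul (u i)) h1
  filter_upwards [h2] with W hW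
  have h3 := ENNReal.tendsto_atTop_zero_of_tsum_ne_top hW.ne
  have h4 : ∀ᶠ i in atTop, u i * BB α a M N i W ≤ 1 := by
    have := h3.eventually (gt_mem_nhds (zero_lt_one : (0 : ENNReal) < 1))
    filter_upwards [this] with i hi using hi.le
  filter_upwards [h4] with i hi
  have hpos : 0 < ((i : ℝ) + 1) ^ 2 * Kr i := by have := hK0 i; positivity
  have h5 : ENNReal.ofReal (((i : ℝ) + 1) ^ 2 * Kr i) * u i = 1 := by
    simp only [hu]
    rw [← ENNReal.ofReal_mul hpos.le, mul_inv_cancel₀ hpos.ne', ENNReal.ofReal_one]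
  calc BB α a M N i W = ENNReal.ofReal (((i : ℝ) + 1) ^ 2 * Kr i) * u i * BB α a M N i W := by rw [h5, one_mul]
    _ = ENNReal.ofReal (((i : ℝ) + 1) ^ 2 * Kr i) * (u i * BB α a M N i W) := by rw [mul_assoc]
    _ ≤ ENNReal.ofReal (((i : ℝ) + 1) ^ 2 * Kr i) * 1 := mul_le_mul_right hi _
    _ = _ := by rw [mul_one]

end Pool.Agent.H41.KG
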