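import Pool.Agent.H41.KG.FinA

/-! # Project KG: assembly, part two: the lower bound in the windows -/

set_option autoImplicit false

open MeasureTheory Filter Topology Set

namespace Pool.Agent.H41.KG

open Pool.Agent.H41.BC (g tr NN q1)
open Pool.Agent.H41.KS (Cl lw Pr zz m1 m2 e2 ph ff EE)

attribute [local irreducible] YY ff

lemma zz_ne (t w : ℝ) : (1 - zz t w) ≠ 0 := by
  intro h
  have h1 : zz t w = 1 := by
    have := sub_eq_zero.1 h
    exact this.symm
  have h2 := Pool.Agent.H41.KS.zz_norm t w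
  rw [h1, norm_one] at h2
  norm_num at h2

/-- the logarithm on the line -/
theorem log_line : ∃ C : ℝ, 0 ≤ C ∧ ∀ α : ℕ → ℝ, Cl α → ∀ W : ℕ → ℝ, (∀ n, W n ∈ Ioc (α n) (α (n + 1))) →
    ∀ (t : ℝ) (N : ℕ), 1 ≤ t →
      |Real.log ‖ff α W (1 / 2 + t * Complex.I)‖ - ∑ n ∈ Finset.range N, YY α n t (W n)| ≤
        2 * g (α 0) + C * (t * Real.exp (-(α N / 2))) := by
  obtain ⟨C, hC⟩ := Pool.Agent.H41.KS.ff_line
  refine ⟨|C|, abs_nonneg _, fun α H W hW t N ht => ?_⟩
  obtain ⟨r, hr, hf⟩ := hC α H W hW t N ht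
  have ht0 : 0 < t := by linarith
  have hpos : ∀ n, 0 < ‖(1 - zz t (W n))⁻¹‖ := fun n => norm_pos_iff.2 (inv_ne_zero (zz_ne t (W n)))
  have hlog : Real.log ‖ff α W (1 / 2 + t * Complex.I)‖ =
      ((EE (α 0) (1 / 2 + t * Complex.I)).re + (EE (α 0) (1 + 2 * t * Complex.I)).re / 2) +
        ∑ n ∈ Finset.range N, YY α n t (W n) + r := by
    rw [hf, Real.log_mul, Real.log_mul, Real.log_exp, Real.log_exp, Real.log_prod]
    · congr 2
      refine Finset.sum_congr rfl fun n _ => ?_
      rw [Real.log_mul (hpos n).ne' (Real.exp_pos _).ne', Real.log_exp]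
      unfold YY
      ring
    · intro n _
      exact (mul_pos (hpos n) (Real.exp_pos _)).ne'
    · exact (Real.exp_pos _).ne'
    · exact (Finset.prod_pos fun n _ => mul_pos (hpos n) (Real.exp_pos _)).ne'
    · exact (mul_pos (Real.exp_pos _) (Finset.prod_pos fun n _ => mul_pos (hpos n) (Real.exp_pos _))).ne'
    · exact (Real.exp_pos _).ne'
  have hα0 := H.four_le 0
  have hg0 : 0 < g (α 0) := Pool.Agent.H41.BC.g_pos (by linarith)
  have im1 : ((1 / 2 + t * Complex.I : ℂ)).im = t := by simp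
  have im2 : ((1 + 2 * t * Complex.I : ℂ)).im = 2 * t := by simp
  have re1 : ((1 / 2 + t * Complex.I : ℂ)).re = 1 / 2 := by simp
  have re2 : ((1 + 2 * t * Complex.I : ℂ)).re = 1 := by simp
  have hb1 : |(EE (α 0) (1 / 2 + t * Complex.I)).re| ≤ g (α 0) := by
    have h := Pool.Agent.H41.KS.ee_norm (a := α 0) (s := 1 / 2 + t * Complex.I) (by rw [im1]; exact ht0.ne')
    rw [im1, re1, abs_of_pos ht0] at h
    refine (Complex.abs_re_le_norm _).trans (h.trans ?_)
    rw [div_le_iff₀ ht0]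
    calc g (α 0) * Real.exp (-(1 / 2 * α 0)) ≤ g (α 0) * 1 :=
          mul_le_mul_of_nonneg_left (Real.exp_le_one_iff.2 (by linarith)) hg0.le
      _ ≤ g (α 0) * t := mul_le_mul_of_nonneg_left ht hg0.le
  have hb2 : |(EE (α 0) (1 + 2 * t * Complex.I)).re| ≤ g (α 0) := by
    have h := Pool.Agent.H41.KS.ee_norm (a := α 0) (s := 1 + 2 * t * Complex.I) (by rw [im2]; positivity)
    rw [im2, re2, abs_of_pos (by linarith : 0 < 2 * t)] at h
    refine (Complex.abs_re_le_norm _).trans (h.trans ?_)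
    rw [div_le_iff₀ (by linarith)]
    calc g (α 0) * Real.exp (-(1 * α 0)) ≤ g (α 0) * 1 :=
          mul_le_mul_of_nonneg_left (Real.exp_le_one_iff.2 (by linarith)) hg0.le
      _ ≤ g (α 0) * (2 * t) := mul_le_mul_of_nonneg_left (by linarith) hg0.le
  have hr2 : |r| ≤ |C| * (t * Real.exp (-(α N / 2))) :=
    hr.trans (mul_le_mul_of_nonneg_right (le_abs_self _) (by positivity))
  rw [hlog]
  rw [abs_le] at hb1 hb2 hr2 ⊢
  constructor <;> linarith [hb1.1, hb1.2, hb2.1, hb2.2, hr2.1, hr2.2]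

variable {α : ℕ → ℝ} {a M N : ℕ → ℕ}

lemma Scale.a_mono (S : Scale α a M) : Monotone a :=
  monotone_nat_of_le_succ fun i => le_trans (Nat.le_add_right _ _) (S.disj i)

/-- the lower bound in the window -/
theorem window_bound (H : Cl α) (S : Scale α a M)
    (hN : ∀ i, 6 * α (a i) ≤ α (N i) ∧ α (N i) ≤ 6 * α (a i) + 1) {W : ℕ → ℝ} (hW : ∀ n, W n ∈ Ioc (α n) (α (n + 1))) :
    ∃ D : ℝ, 0 ≤ D ∧ ∀ i, ∀ t ∈ Vw α a i,
      α (a i) ^ i / 2 - α (a i) - D - |∑ n ∈ Finset.range (N i) \ blk a M i, YY α n t (W n)| ≤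
        Real.log ‖ff α (WM α a M W) (1 / 2 + t * Complex.I)‖ := by
  classical
  obtain ⟨C, hC0, hC⟩ := log_line
  have hg0 : 0 < g (α 0) := Pool.Agent.H41.BC.g_pos (by linarith [H.four_le 0])
  refine ⟨2 * g (α 0) + C * 2, by positivity, fun i t ht => ?_⟩
  set x := α (a i) with hx
  have hx10 : 10 ≤ x := by
    have := S.large i
    have h0 : (0:ℝ) ≤ i := Nat.cast_nonneg i
    linarith
  have hcell := wm_cell H S hW
  obtain ⟨t1, t2⟩ := tc_bd H S i (vw_mem ht)
  have hTc : Tc α a i = Real.exp (2 * x) := rfl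
  have hTc1 : 21 ≤ Tc α a i := by
    rw [hTc]; have := Real.add_one_le_exp (2 * x); linarith
  have h1 := hC α H (WM α a M W) hcell t (N i) (by linarith)
  have hre : t * Real.exp (-(α (N i) / 2)) ≤ 2 := by
    have e1 : Real.exp (-(α (N i) / 2)) ≤ Real.exp (-(3 * x)) := Real.exp_le_exp.2 (by linarith [(hN i).1])
    have e2 : t ≤ 2 * Real.exp (2 * x) := by rw [← hTc]; linarith
    calc t * Real.exp (-(α (N i) / 2)) ≤ 2 * Real.exp (2 * x) * Real.exp (-(3 * x)) :=
          mul_le_mul e2 e1 (Real.exp_pos _).le (by positivity)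
      _ = 2 * Real.exp (-x) := by rw [mul_assoc, ← Real.exp_add]; congr 2; ring
      _ ≤ 2 * 1 := mul_le_mul_of_nonneg_left (Real.exp_le_one_iff.2 (by linarith)) (by norm_num)
      _ = 2 := by norm_num
  have hblk : blk a M i ⊆ Finset.range (N i) := by
    intro n hn
    rw [blk, Finset.mem_Ico] at hn
    rw [Finset.mem_range]
    refine lt_of_lt_of_le hn.2 ?_
    rw [← H.alpha_mono.le_iff_le]
    linarith [S.top i, (hN i).1]
  have hsplit : ∑ n ∈ Finset.range (N i), YY α n t (WM α a M W n) =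
      ∑ n ∈ Finset.range (N i) \ blk a M i, YY α n t (WM α a M W n) + ∑ n ∈ blk a M i, YY α n t (WM α a M W n) :=
    (Finset.sum_sdiff hblk).symm
  -- the block
  have hb : x ^ i / 2 ≤ ∑ n ∈ blk a M i, YY α n t (WM α a M W n) := by
    have h2 : ∀ n ∈ blk a M i, Real.exp (-(x / 2)) / 2 ≤ YY α n t (WM α a M W n) := by
      intro n hn
      have hn' := Finset.mem_Ico.1 hn
      refine yb_blk H hx10 (H.alpha_mono.monotone hn'.1) ?_ (hcell n) (by rw [← hTc]; exact t1)
        (wm_cos H S W hn (vw_mem ht))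
      have : n + 1 ≤ a i + M i := hn'.2
      exact (H.alpha_mono.monotone this).trans (S.top i)
    have h3 := Finset.sum_le_sum h2
    rw [Finset.sum_const, nsmul_eq_mul] at h3
    refine le_trans ?_ h3
    have hcard : (blk a M i).card = M i := by simp [blk]
    rw [hcard]
    have h4 := S.ge i
    calc x ^ i / 2 = (Real.exp (x / 2) * x ^ i) * (Real.exp (-(x / 2)) / 2) := by
          have : Real.exp (x / 2) * Real.exp (-(x / 2)) = 1 := by rw [← Real.exp_add]; simp
          calc x ^ i / 2 = (Real.exp (x / 2) * Real.exp (-(x / 2))) * x ^ i / 2 := by rw [this, one_mul]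
            _ = _ := by ring
      _ ≤ _ := mul_le_mul_of_nonneg_right h4 (by positivity)
  -- outside
  set U : Finset ℕ := (Finset.range i).biUnion (blk a M) with hU
  have hcardU : (U.card : ℝ) ≤ ∑ l ∈ Finset.range i, (M l : ℝ) := by
    have h5 : U.card ≤ ∑ l ∈ Finset.range i, (blk a M l).card := Finset.card_biUnion_le
    have h6 : ∑ l ∈ Finset.range i, (blk a M l).card = ∑ l ∈ Finset.range i, M l :=
      Finset.sum_congr rfl fun l _ => by simp [blk]
    rw [h6] at h5
    exact_mod_cast h5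
  have hNa : N i ≤ a (i + 1) := by
    have : α (N i) < α (a (i + 1)) := by linarith [S.next i, (hN i).2]
    exact (H.alpha_mono.lt_iff_lt.1 this).le
  have hdiff : ∀ n ∈ Finset.range (N i) \ blk a M i, |YY α n t (WM α a M W n) - YY α n t (W n)| ≤
      if n ∈ U then (2:ℝ) else 0 := by
    intro n hn
    rw [Finset.mem_sdiff, Finset.mem_range] at hn
    split_ifs with hnU
    · have e1 := yb_le H (hcell n) t
      have e2' := yb_le H (hW n) t
      refine (abs_sub _ _).trans (by linarith)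
    · have hout : ∀ l, n ∉ blk a M l := by
        intro l hl
        rcases lt_trichotomy l i with h7 | h7 | h7
        · exact hnU (Finset.mem_biUnion.2 ⟨l, Finset.mem_range.2 h7, hl⟩)
        · exact hn.2 (h7 ▸ hl)
        · have h8 : a (i + 1) ≤ a l := S.a_mono h7
          have h9 := (Finset.mem_Ico.1 hl).1
          omega
      rw [wm_out hout]
      simp
  have hsumd : |∑ n ∈ Finset.range (N i) \ blk a M i, YY α n t (WM α a M W n) -
      ∑ n ∈ Finset.range (N i) \ blk a M i, YY α n t (W n)| ≤ x := by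
    rw [← Finset.sum_sub_distrib]
    refine (Finset.abs_sum_le_sum_abs _ _).trans ((Finset.sum_le_sum hdiff).trans ?_)
    rw [← Finset.sum_filter, Finset.sum_const, nsmul_eq_mul]
    have h10 : (((Finset.range (N i) \ blk a M i).filter (· ∈ U)).card : ℝ) ≤ U.card := by
      exact_mod_cast Finset.card_le_card fun n hn => (Finset.mem_filter.1 hn).2
    have h11 := S.prev i
    linarith
  rw [hsplit] at h1
  rw [abs_le] at h1 hsumd
  have h12 := neg_abs_le (∑ n ∈ Finset.range (N i) \ blk a M i, YY α n t (W n))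
  have h13 : C * (t * Real.exp (-(α (N i) / 2))) ≤ C * 2 := mul_le_mul_of_nonneg_left hre hC0
  linarith [h1.1, hsumd.1]

end Pool.Agent.H41.KG
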