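import Pool.Agent.H41.KG.FinB

/-! # Project KG: assembly, part three: the moments of the modified system -/

set_option autoImplicit false

open MeasureTheory Filter Topology Set

namespace Pool.Agent.H41.KG

open Pool.Agent.H41.BC (g tr NN q1)
open Pool.Agent.H41.KS (Cl lw Pr zz m1 m2 e2 ph ff EE)

attribute [local irreducible] YY ff

variable {α : ℕ → ℝ} {a M N : ℕ → ℕ}

/-- Jensen -/
lemma jensen {l : ℝ → ℝ} {u v L c : ℝ} (huv : u ≤ v) (hl : ContinuousOn l (Icc u v)) (hc : 0 ≤ c)
    (h : (v - u) * L ≤ ∫ t in u..v, l t) : (v - u) * Real.exp (c * L) ≤ ∫ t in u..v, Real.exp (c * l t) := by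
  have hi : IntervalIntegrable l volume u v := ContinuousOn.intervalIntegrable_of_Icc huv hl
  have hc2 : ContinuousOn (fun t => Real.exp (c * l t)) (Icc u v) := (continuousOn_const.mul hl).rexp
  have h1 : ∫ t in u..v, Real.exp (c * L) * (1 + c * (l t - L)) ≤ ∫ t in u..v, Real.exp (c * l t) := by
    refine intervalIntegral.integral_mono_on huv ?_ (ContinuousOn.intervalIntegrable_of_Icc huv hc2) fun t _ => ?_
    · exact ContinuousOn.intervalIntegrable_of_Icc huv
        (continuousOn_const.mul (continuousOn_const.add (continuousOn_const.mul (hl.sub continuousOn_const))))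
    · have h2 := Real.add_one_le_exp (c * (l t - L))
      calc Real.exp (c * L) * (1 + c * (l t - L)) ≤ Real.exp (c * L) * Real.exp (c * (l t - L)) :=
            mul_le_mul_of_nonneg_left (by linarith) (Real.exp_pos _).le
        _ = Real.exp (c * l t) := by rw [← Real.exp_add]; congr 1; ring
  refine le_trans ?_ h1
  rw [intervalIntegral.integral_const_mul]
  have h3 : ∫ t in u..v, (1 + c * (l t - L)) = (v - u) + c * ((∫ t in u..v, l t) - (v - u) * L) := by
    rw [intervalIntegral.integral_add intervalIntegrable_const ((hi.sub intervalIntegrable_const).const_mul c),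
      intervalIntegral.integral_const_mul, intervalIntegral.integral_sub hi intervalIntegrable_const]
    simp only [intervalIntegral.integral_const, smul_eq_mul]
    ring
  rw [h3, mul_comm]
  refine mul_le_mul_of_nonneg_left ?_ (Real.exp_pos _).le
  have : 0 ≤ c * ((∫ t in u..v, l t) - (v - u) * L) := mul_nonneg hc (by linarith)
  linarith

lemma ff_ne (α W : ℕ → ℝ) (s : ℂ) : ff α W s ≠ 0 := by
  unfold ff
  exact Complex.exp_ne_zero _

lemma line_cont (H : Cl α) {W : ℕ → ℝ} (hW : ∀ n, W n ∈ Ioc (α n) (α (n + 1))) :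
    ContinuousOn (fun t : ℝ => Real.log ‖ff α W (1 / 2 + t * Complex.I)‖) (Ioi 0) := by
  have h := Pool.Agent.H41.KS.ff_cont_line H hW 1
  simp only [pow_one] at h
  exact h.log fun t _ => (norm_pos_iff.2 (ff_ne α W _)).ne'

/-- the moments of the modified system are large -/
theorem mom_bound (H : Cl α) (S : Scale α a M)
    (hN : ∀ i, 6 * α (a i) ≤ α (N i) ∧ α (N i) ≤ 6 * α (a i) + 1) {W : ℕ → ℝ} (hW : ∀ n, W n ∈ Ioc (α n) (α (n + 1)))
    {C : ℝ} (hC : 0 ≤ C) (hB : ∀ᶠ i : ℕ in atTop,
      BB α a M N i W ≤ ENNReal.ofReal (((i : ℝ) + 1) ^ 2 * (2 * et α a i * (C * (1 + Real.log (α (N i))))))) :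
    ∃ D : ℝ, 0 ≤ D ∧ ∀ k : ℝ, 0 < k → ∀ᶠ i : ℕ in atTop,
      2 * et α a i * Real.exp (2 * k * (α (a i) ^ i / 2 - D * α (a i) ^ 3)) ≤
        ∫ t in (1 : ℝ)..(2 * Tc α a i), ‖ff α (WM α a M W) (1 / 2 + t * Complex.I)‖ ^ (2 * k) := by
  classical
  obtain ⟨D, hD0, hD⟩ := window_bound H S hN hW
  refine ⟨D + 2 + 8 * C, by positivity, fun k hk => ?_⟩
  filter_upwards [hB] with i hi
  set x := α (a i) with hx
  have hi0 : (0:ℝ) ≤ i := Nat.cast_nonneg i
  have hxi : (i : ℝ) + 10 ≤ x := S.large i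
  have hx10 : 10 ≤ x := by linarith
  set e := et α a i with he
  have he0 : 0 < e := et_pos H a i
  set c := tc α a i with hc
  have hcell := wm_cell H S hW
  have hTc : Tc α a i = Real.exp (2 * x) := rfl
  have hTc1 : 21 ≤ Tc α a i := by
    rw [hTc]; have := Real.add_one_le_exp (2 * x); linarith
  have hlow : Tc α a i - 1 ≤ c - e := (tc_bd H S i (t := c - e) (by rw [abs_le]; constructor <;> linarith)).1
  have hup : c + e ≤ 2 * Tc α a i - 1 := (tc_bd H S i (t := c + e) (by rw [abs_le]; constructor <;> linarith)).2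
  have hce : c - e ≤ c + e := by linarith
  set s := Finset.range (N i) \ blk a M i with hs
  set G : ℝ → ℝ := fun t => ∑ n ∈ s, YY α n t (W n) with hG
  have hGc : Continuous G := continuous_finsetSum _ fun n _ => yb_cont α n (W n)
  -- the square of the random part
  have hBi : ∫ t in (c - e)..(c + e), G t ^ 2 ≤ ((i : ℝ) + 1) ^ 2 * (2 * e * (C * (1 + Real.log (α (N i))))) := by
    have hr0 : 0 ≤ ((i : ℝ) + 1) ^ 2 * (2 * e * (C * (1 + Real.log (α (N i))))) := by
      have : 0 ≤ Real.log (α (N i)) := Real.log_nonneg (by linarith [H.four_le (N i)])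
      positivity
    have e1 : BB α a M N i W = ENNReal.ofReal (∫ t in (c - e)..(c + e), G t ^ 2) := by
      unfold BB Vw
      rw [intervalIntegral.integral_of_le hce, ← integral_Icc_eq_integral_Ioc,
        ofReal_integral_eq_lintegral_ofReal]
      · exact (hGc.pow 2).continuousOn.integrableOn_Icc
      · exact ae_of_all _ fun t => sq_nonneg _
    rw [e1] at hi
    exact (ENNReal.ofReal_le_ofReal_iff hr0).1 hi
  have hlogN : Real.log (α (N i)) ≤ 6 * x := by
    have h0 : 0 < α (N i) := by linarith [H.four_le (N i)]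
    have := Real.log_le_sub_one_of_pos h0
    linarith [(hN i).2]
  have hBi2 : ∫ t in (c - e)..(c + e), G t ^ 2 ≤ 2 * e * (8 * C * x ^ 3) := by
    refine hBi.trans ?_
    have f1 : ((i : ℝ) + 1) ^ 2 ≤ x ^ 2 := pow_le_pow_left₀ (by linarith) (by linarith) 2
    have f2 : C * (1 + Real.log (α (N i))) ≤ C * (8 * x) := mul_le_mul_of_nonneg_left (by linarith) hC
    have f3 : 0 ≤ C * (1 + Real.log (α (N i))) := by
      have : 0 ≤ Real.log (α (N i)) := Real.log_nonneg (by linarith [H.four_le (N i)])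
      positivity
    calc ((i : ℝ) + 1) ^ 2 * (2 * e * (C * (1 + Real.log (α (N i))))) ≤ x ^ 2 * (2 * e * (C * (8 * x))) := by gcongr
      _ = _ := by ring
  -- the integral of the logarithm
  set l : ℝ → ℝ := fun t => Real.log ‖ff α (WM α a M W) (1 / 2 + t * Complex.I)‖ with hl
  have hlc : ContinuousOn l (Icc (c - e) (c + e)) := (line_cont H hcell).mono fun t ht =>
    (show (0:ℝ) < t by linarith [ht.1])
  have hint : (c + e - (c - e)) * (x ^ i / 2 - x - D - 1 - 8 * C * x ^ 3) ≤ ∫ t in (c - e)..(c + e), l t := by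
    have h1 : ∫ t in (c - e)..(c + e), (x ^ i / 2 - x - D - 1 - G t ^ 2) ≤ ∫ t in (c - e)..(c + e), l t := by
      refine intervalIntegral.integral_mono_on hce ?_ (ContinuousOn.intervalIntegrable_of_Icc hce hlc) fun t ht => ?_
      · exact (continuous_const.sub (hGc.pow 2)).intervalIntegrable _ _
      · have h2 := hD i t ht
        have h3 : |G t| ≤ 1 + G t ^ 2 := by
          rw [← sq_abs]; nlinarith [sq_nonneg (|G t| - 1 / 2), abs_nonneg (G t)]
        linarith
    have h4 : ∫ t in (c - e)..(c + e), (x ^ i / 2 - x - D - 1 - G t ^ 2) =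
        (c + e - (c - e)) * (x ^ i / 2 - x - D - 1) - ∫ t in (c - e)..(c + e), G t ^ 2 := by
      have hi2 : IntervalIntegrable (fun t => G t ^ 2) volume (c - e) (c + e) := (hGc.pow 2).intervalIntegrable _ _
      rw [intervalIntegral.integral_sub intervalIntegrable_const hi2,
        intervalIntegral.integral_const, smul_eq_mul]
    have h5 : c + e - (c - e) = 2 * e := by ring
    rw [h4] at h1
    rw [h5] at h1 ⊢
    linarith
  have hJ := jensen hce hlc (by linarith : 0 ≤ 2 * k) hint
  have hrw : ∀ t : ℝ, Real.exp (2 * k * l t) = ‖ff α (WM α a M W) (1 / 2 + t * Complex.I)‖ ^ (2 * k) := by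
    intro t
    simp only [hl]
    rw [Real.rpow_def_of_pos (norm_pos_iff.2 (ff_ne α _ _)), mul_comm]
  simp_rw [hrw] at hJ
  -- the whole interval
  have hFc : ContinuousOn (fun t : ℝ => ‖ff α (WM α a M W) (1 / 2 + t * Complex.I)‖ ^ (2 * k)) (Ici 1) := by
    have h1 := (continuousOn_const (c := 2 * k)).mul (line_cont H hcell)
    refine (h1.rexp.congr fun t _ => (hrw t).symm).mono fun t ht => ?_
    exact lt_of_lt_of_le one_pos (show (1:ℝ) ≤ t from ht)
  have hmono : ∫ t in (c - e)..(c + e), ‖ff α (WM α a M W) (1 / 2 + t * Complex.I)‖ ^ (2 * k) ≤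
      ∫ t in (1 : ℝ)..(2 * Tc α a i), ‖ff α (WM α a M W) (1 / 2 + t * Complex.I)‖ ^ (2 * k) := by
    refine intervalIntegral.integral_mono_interval (by linarith) hce (by linarith) ?_ ?_
    · exact ae_of_all _ fun t => by positivity
    · exact ContinuousOn.intervalIntegrable_of_Icc (by linarith) (hFc.mono fun t ht => ht.1)
  refine le_trans ?_ (hJ.trans hmono)
  have h6 : c + e - (c - e) = 2 * e := by ring
  rw [h6]
  refine mul_le_mul_of_nonneg_left (Real.exp_le_exp.2 (mul_le_mul_of_nonneg_left ?_ (by linarith))) (by linarith)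
  have h7 : x ≤ x ^ 3 := by nlinarith [sq_nonneg x, sq_nonneg (x - 1)]
  have h8 : 1 ≤ x ^ 3 := by nlinarith
  have h9 : D ≤ D * x ^ 3 := le_mul_of_one_le_right hD0 h8
  linarith

/-- super-polynomial growth -/
theorem growth (H : Cl α) (S : Scale α a M) {D k : ℝ} (hD : 0 ≤ D) (hk : 0 < k) (B : ℝ) : ∀ᶠ i : ℕ in atTop,
    Real.exp (Real.log (2 * Tc α a i) ^ B) < 2 * et α a i * Real.exp (2 * k * (α (a i) ^ i / 2 - D * α (a i) ^ 3)) := by
  have hxT : Tendsto (fun i => α (a i)) atTop atTop := by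
    refine tendsto_atTop_mono (fun i => ?_) tendsto_natCast_atTop_atTop
    exact (by linarith : (i : ℝ) ≤ (i : ℝ) + 10).trans (S.large i)
  set b : ℕ := ⌈max B 0⌉₊ with hb
  have hBb : B ≤ b := (le_max_left _ _).trans (Nat.le_ceil _)
  set n : ℕ := b + 4 with hn
  -- polynomial comparison
  have hpoly : ∀ᶠ x : ℝ in atTop, (3 * x) ^ b + (2 * x + 2) + 2 * k * (D * x ^ 3) < k * x ^ n := by
    have t1 : Tendsto (fun x : ℝ => k / 3 * x ^ 4) atTop atTop := (tendsto_pow_atTop (by norm_num)).const_mul_atTop (by positivity)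
    have t1' : Tendsto (fun x : ℝ => k / 3 * x ^ 3) atTop atTop := (tendsto_pow_atTop (by norm_num)).const_mul_atTop (by positivity)
    have t2 : Tendsto (fun x : ℝ => x) atTop atTop := tendsto_id
    filter_upwards [t1.eventually_gt_atTop (3 ^ b), t1'.eventually_gt_atTop 4, t2.eventually_gt_atTop (6 * D),
      eventually_ge_atTop 1] with x h1 h2 h3 h4
    have hxb : 1 ≤ x ^ b := one_le_pow₀ h4
    have hx0 : 0 < x := by linarith
    have e1 : (3 * x) ^ b < k / 3 * x ^ n := by
      rw [mul_pow, hn, pow_add]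
      calc 3 ^ b * x ^ b < (k / 3 * x ^ 4) * x ^ b := mul_lt_mul_of_pos_right h1 (by positivity)
        _ = _ := by ring
    have h5 : 1 ≤ x ^ 3 := one_le_pow₀ h4
    have hxn : x ^ 4 ≤ x ^ n := pow_le_pow_right₀ h4 (by omega)
    have e2' : 2 * x + 2 ≤ k / 3 * x ^ n := by
      calc 2 * x + 2 ≤ 4 * x := by linarith
        _ ≤ k / 3 * x ^ 3 * x := mul_le_mul_of_nonneg_right h2.le hx0.le
        _ = k / 3 * x ^ 4 := by ring
        _ ≤ _ := mul_le_mul_of_nonneg_left hxn (by positivity)
    have e3 : 2 * k * (D * x ^ 3) ≤ k / 3 * x ^ n := by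
      calc 2 * k * (D * x ^ 3) = k / 3 * (6 * D * x ^ 3) := by ring
        _ ≤ k / 3 * (x * x ^ 3) := mul_le_mul_of_nonneg_left (mul_le_mul_of_nonneg_right h3.le (by positivity)) (by positivity)
        _ = k / 3 * x ^ 4 := by ring
        _ ≤ _ := mul_le_mul_of_nonneg_left hxn (by positivity)
    linarith
  filter_upwards [hxT.eventually hpoly, eventually_ge_atTop n] with i hi hin
  set x := α (a i) with hx
  have hi0 : (0:ℝ) ≤ i := Nat.cast_nonneg i
  have hx10 : 10 ≤ x := by have := S.large i; linarith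
  have hlog : Real.log (2 * Tc α a i) ≤ 3 * x := by
    have hT : Tc α a i = Real.exp (2 * x) := rfl
    rw [hT, Real.log_mul (by norm_num) (Real.exp_pos _).ne', Real.log_exp]
    have : Real.log 2 ≤ 1 := by have := Real.log_two_lt_d9; linarith
    linarith
  have hlog1 : 1 ≤ Real.log (2 * Tc α a i) := by
    have hT : Tc α a i = Real.exp (2 * x) := rfl
    rw [hT, Real.log_mul (by norm_num) (Real.exp_pos _).ne', Real.log_exp]
    have : 0 ≤ Real.log 2 := Real.log_nonneg (by norm_num)
    linarith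
  have h1 : Real.log (2 * Tc α a i) ^ B ≤ (3 * x) ^ b := by
    calc Real.log (2 * Tc α a i) ^ B ≤ Real.log (2 * Tc α a i) ^ (b : ℝ) := Real.rpow_le_rpow_of_exponent_le hlog1 hBb
      _ = Real.log (2 * Tc α a i) ^ b := Real.rpow_natCast _ _
      _ ≤ _ := pow_le_pow_left₀ (by linarith) hlog b
  have h2 : x ^ n ≤ x ^ i := pow_le_pow_right₀ (by linarith) hin
  have h3 : Real.exp (-(2 * x + 2)) ≤ 2 * et α a i := by
    unfold et
    rw [← hx]
    have h4 : 2 * (1 / (4 * (x + 1))) = (2 * x + 2)⁻¹ := by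
      have : x + 1 ≠ 0 := by linarith
      field_simp
      ring
    rw [h4, Real.exp_neg]
    exact inv_anti₀ (by linarith) (by linarith [Real.add_one_le_exp (2 * x + 2)])
  calc Real.exp (Real.log (2 * Tc α a i) ^ B) ≤ Real.exp ((3 * x) ^ b) := Real.exp_le_exp.2 h1
    _ < Real.exp (-(2 * x + 2) + 2 * k * (x ^ i / 2 - D * x ^ 3)) := by
        refine Real.exp_lt_exp.2 ?_
        have : k * x ^ n ≤ k * x ^ i := mul_le_mul_of_nonneg_left h2 hk.le
        have e : 2 * k * (x ^ i / 2 - D * x ^ 3) = k * x ^ i - 2 * k * (D * x ^ 3) := by ring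
        rw [e]
        linarith
    _ = Real.exp (-(2 * x + 2)) * Real.exp (2 * k * (x ^ i / 2 - D * x ^ 3)) := Real.exp_add _ _
    _ ≤ _ := mul_le_mul_of_nonneg_right h3 (Real.exp_pos _).le

end Pool.Agent.H41.KG
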