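import Pool.Agent.H41.KG.FinC

/-! # Project KG: assembly, part four: the two systems -/

set_option autoImplicit false

open MeasureTheory Filter Topology Set

namespace Pool.Agent.H41.KG

open Pool.Agent.H41.BC (g tr NN q1)
open Pool.Agent.H41.KS (Cl lw Pr zz m1 m2 e2 ph ff EE XX IsKap)

attribute [local irreducible] YY ff

/-- the law of the integers -/
def NLaw (W : ℕ → ℝ) : Prop :=
  ∃ c : ℝ, 0 < c ∧ ∀ ε : ℝ, 0 < ε → ∃ A : ℝ, ∀ x : ℝ, 1 ≤ x → |(NN W x : ℝ) - c * x| ≤ A * x ^ (1 / 2 + ε)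

theorem two_sys {α : ℕ → ℝ} (H : Cl α) : ∃ W W' : ℕ → ℝ, (∀ n, W n ∈ Ioc (α n) (α (n + 1))) ∧
    (∀ n, W' n ∈ Ioc (α n) (α (n + 1))) ∧ NLaw W ∧ NLaw W' ∧
    (∀ σ : ℝ, 1 / 2 < σ → Summable (Set.indicator {n | W n ≠ W' n} fun n => Real.exp (-(σ * α n)))) ∧
    (∀ K : ℕ, ∃ C : ℝ, 0 < C ∧ C < 1 ∧
      Tendsto (fun T : ℝ => (∫ t in (1 : ℝ)..T, ‖ff α W (1 / 2 + t * Complex.I)‖ ^ (2 * (K + 1))) /
        (T * Real.log T ^ ((K + 1) ^ 2))) atTop (𝓝 C)) ∧
    (∀ k : ℝ, 0 < k → ∀ B : ℝ, ∃ᶠ T : ℝ in atTop, Real.exp (Real.log T ^ B) <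
      ∫ t in (1 : ℝ)..T, ‖ff α W' (1 / 2 + t * Complex.I)‖ ^ (2 * k)) := by
  have := Pool.Agent.H41.BC.PP_prob H
  obtain ⟨a, M, S⟩ := exists_scale H
  have hxa : ∀ i, α 0 ≤ 6 * α (a i) := fun i => by
    have h1 := H.alpha_mono.monotone (Nat.zero_le (a i))
    have h2 := H.four_le (a i)
    linarith
  choose N hN1 hN2 _ using fun i => Pool.Agent.H41.KS.first H (hxa i)
  obtain ⟨Nj, hNj⟩ := Pool.Agent.H41.KS.exists_N H
  obtain ⟨κ, hκ⟩ := Pool.Agent.H41.KS.kap H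
  obtain ⟨C, hC0, hCae⟩ := bb_ae H a M N
  have h1 : ∀ᵐ W ∂(Pr α), ∀ K : ℕ, Tendsto (fun j => XX K α Nj j W) atTop (𝓝 0) :=
    ae_all_iff.2 fun K => Pool.Agent.H41.KS.xx_ae K H hNj
  obtain ⟨W, ⟨⟨hW, c, hc, hq, hcount⟩, hX⟩, hB⟩ := (((Pool.Agent.H41.KS.as_ae2 H).and h1).and hCae).exists
  have hW' := wm_cell H S hW
  have hthin : ∀ σ : ℝ, 1 / 2 < σ → Summable (Set.indicator {n | W n ≠ WM α a M W n} fun n => Real.exp (-(σ * α n))) :=
    fun σ hσ => wm_thin H S W hσ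
  refine ⟨W, WM α a M W, hW, hW', ⟨c, hc, hcount⟩, num_mod H hW hW' ⟨c, hc, hcount⟩ hthin, hthin, fun K => ?_, ?_⟩
  · obtain ⟨A, hA, hA1, hA2⟩ := Pool.Agent.H41.KS.moments K H hκ hW hc hq hNj (hX K)
    have hA3 : A ≤ 1 := by
      refine le_of_tendsto hA1 (Eventually.of_forall fun n => ?_)
      refine Finset.prod_le_one (fun j _ => ?_) fun j _ => a_le K (by linarith [(hW j).1, H.four_le j])
      have h2 : Real.exp (-W j) < 1 := by
        rw [← Real.exp_zero]; exact Real.exp_lt_exp.2 (by linarith [(hW j).1, H.four_le j])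
      have h3 : 0 ≤ ph K (W j) := tsum_nonneg fun m => by positivity
      have h4 : 0 ≤ 1 - Real.exp (-W j) := by linarith
      positivity
    have hc1 := c_lt H hW hq
    set p : ℕ := (K + 1) ^ 2 with hp
    have hpk : ((K : ℝ) + 1) ^ 2 = (p : ℝ) := by rw [hp]; push_cast; ring
    have hp0 : p ≠ 0 := by positivity
    have e : c ^ p * Real.exp (Real.eulerMascheroniConstant * ((K : ℝ) + 1) ^ 2) =
        (c * Real.exp Real.eulerMascheroniConstant) ^ p := by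
      rw [mul_pow, hpk, mul_comm Real.eulerMascheroniConstant, Real.exp_nat_mul]
    refine ⟨_, by positivity, ?_, hA2⟩
    rw [e]
    have h5 : (c * Real.exp Real.eulerMascheroniConstant) ^ p < 1 := pow_lt_one₀ (by positivity) hc1 hp0
    calc A * (c * Real.exp Real.eulerMascheroniConstant) ^ p ≤ 1 * (c * Real.exp Real.eulerMascheroniConstant) ^ p :=
          mul_le_mul_of_nonneg_right hA3 (by positivity)
      _ < 1 := by rw [one_mul]; exact h5
  · intro k hk B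
    obtain ⟨D, hD0, hD⟩ := mom_bound H S (fun i => ⟨hN1 i, hN2 i⟩) hW hC0 hB
    have hT : Tendsto (fun i => 2 * Tc α a i) atTop atTop := by
      have h2 : Tendsto (fun i => Tc α a i) atTop atTop := by
        have hxT : Tendsto (fun i => 2 * α (a i)) atTop atTop := by
          refine tendsto_atTop_mono (fun i => ?_) tendsto_natCast_atTop_atTop
          have h3 := S.large i
          have h4 : (0:ℝ) ≤ i := Nat.cast_nonneg i
          linarith
        exact Real.tendsto_exp_atTop.comp hxT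
      exact h2.const_mul_atTop (by norm_num)
    have hev : ∀ᶠ i : ℕ in atTop, Real.exp (Real.log (2 * Tc α a i) ^ B) <
        ∫ t in (1 : ℝ)..(2 * Tc α a i), ‖ff α (WM α a M W) (1 / 2 + t * Complex.I)‖ ^ (2 * k) := by
      filter_upwards [hD k hk, growth H S hD0 hk B] with i h1 h2 using h2.trans_le h1
    exact hT.frequently hev.frequently

end Pool.Agent.H41.KG
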